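import Mathlib.Dynamics.Ergodic.MeasurePreserving
import Mathlib.MeasureTheory.Measure.Dirac
import Mathlib.Order.Filter.Germ.Basic
import Mathlib.Combinatorics.SimpleGraph.Acyclic

/-! Definitions for the orbit equivalence form of the question on groups that contain an
existential copy of the free group of rank two. -/

namespace Pool.Agent.MP_494aff_an

open MeasureTheory

/-- The inclusion `H ≤ G` is existential: `G` embeds in the ultrapower of `H` over the diagonal. -/
def Existential (U : Ultrafilter ℕ) {G : Type} [Group G] (H : Subgroup G) : Prop :=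
  ∃ j : G →* Filter.Germ (U : Filter ℕ) H, Function.Injective j ∧
    ∀ h : H, j (h : G) = Filter.Germ.const h

/-- The fair coin. -/
noncomputable def coin : Measure Bool :=
  (1 / 2 : ENNReal) • Measure.dirac true + (1 / 2 : ENNReal) • Measure.dirac false

/-- The Bernoulli shift of `G` on `G → Bool`. -/
def shift {G : Type} [Group G] (g : G) (x : G → Bool) : G → Bool := fun h => x (g⁻¹ * h)

/-- `a` is an essentially free measure preserving action of `G` on `(X, μ)`. -/
def FreePmp {G X : Type} [Group G] [MeasurableSpace X] (a : G → X → X) (μ : Measure X) : Prop :=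
  (∀ x, a 1 x = x) ∧ (∀ g h x, a (g * h) x = a g (a h x)) ∧
    (∀ g, MeasurePreserving (a g) μ μ) ∧ ∀ g, g ≠ 1 → μ {x | a g x = x} = 0

/-- The orbit equivalence relation of `a` is treeable almost everywhere: on an invariant
measurable set of full measure the orbits are the connected components of a measurable acyclic
graph. -/
def Treeable {G X : Type} [MeasurableSpace X] (a : G → X → X) (μ : Measure X) : Prop :=
  ∃ (X₀ : Set X) (T : SimpleGraph X), MeasurableSet X₀ ∧ μ X₀ᶜ = 0 ∧
    (∀ g, ∀ x ∈ X₀, a g x ∈ X₀) ∧ MeasurableSet {p : X × X | T.Adj p.1 p.2} ∧ T.IsAcyclic ∧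
    ∀ x ∈ X₀, ∀ y, T.Reachable x y ↔ ∃ g, a g x = y

end Pool.Agent.MP_494aff_an
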