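import Mathlib.Topology.Sheaves.Presheaf
import Mathlib.Tactic.Monotonicity.Lemmas
import Mathlib.Analysis.SpecialFunctions.Log.NegMulLog
import Mathlib.RingTheory.PiTensorProduct
import Mathlib.MeasureTheory.Measure.MeasuredSets
import Mathlib.Probability.Independence.InfinitePi
import Pool.Agent.MP_494aff_an.Defs

-- ======== part 0: formerly Pool.Agent.MP_494aff_an.Avg
section MrgPart0

/-! Averaging operators: resampling of coordinates, and random subsets. -/

namespace Pool.Agent.MP_494aff_an

open MeasureTheory Function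

variable {ι : Type} [DecidableEq ι]

/-- Resampling of one coordinate. -/
def Eop (w : ι → ℝ) (a : ι) : Module.End ℝ ((ι → Bool) → ℝ) where
  toFun F := fun z => (1 - w a) * F (update z a false) + w a * F (update z a true)
  map_add' F G := by ext z; simp only [Pi.add_apply]; ring
  map_smul' c F := by ext z; simp only [Pi.smul_apply, smul_eq_mul, RingHom.id_apply]; ring

lemma Eop_apply (w : ι → ℝ) (a : ι) (F : (ι → Bool) → ℝ) (z : ι → Bool) :
    Eop w a F z = (1 - w a) * F (update z a false) + w a * F (update z a true) := rfl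

lemma Eop_comm (w : ι → ℝ) (a b : ι) : Commute (Eop w a) (Eop w b) := by
  by_cases h : a = b
  · rw [h]
  · ext F z
    simp only [Module.End.mul_apply, Eop_apply, update_comm h]
    ring

/-- Resampling of the coordinates in `C`. -/
def Ex (w : ι → ℝ) (C : Finset ι) : Module.End ℝ ((ι → Bool) → ℝ) :=
  C.noncommProd (Eop w) (fun a _ b _ _ => Eop_comm w a b)

@[simp] lemma Ex_empty (w : ι → ℝ) (F : (ι → Bool) → ℝ) : Ex w ∅ F = F := by simp [Ex]

lemma Ex_insert (w : ι → ℝ) {C : Finset ι} {a : ι} (h : a ∉ C) (F : (ι → Bool) → ℝ) :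
    Ex w (insert a C) F = Eop w a (Ex w C F) := by
  rw [Ex, Finset.noncommProd_insert_of_notMem _ _ _ _ h]; rfl

lemma Ex_insert' (w : ι → ℝ) {C : Finset ι} {a : ι} (h : a ∉ C) (F : (ι → Bool) → ℝ) :
    Ex w (insert a C) F = Ex w C (Eop w a F) := by
  rw [Ex, Finset.noncommProd_insert_of_notMem' _ _ _ _ h]; rfl

lemma Ex_nonneg {w : ι → ℝ} (h0 : ∀ a, 0 ≤ w a) (h1 : ∀ a, w a ≤ 1) (C : Finset ι)
    {F : (ι → Bool) → ℝ} (hF : ∀ z, 0 ≤ F z) (z : ι → Bool) : 0 ≤ Ex w C F z := by
  induction C using Finset.induction_on generalizing z with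
  | empty => simpa using hF z
  | insert a C h ih =>
    rw [Ex_insert w h, Eop_apply]
    have := h0 a
    have := sub_nonneg.2 (h1 a)
    have := ih (update z a false)
    have := ih (update z a true)
    positivity

lemma Eop_dep (w : ι → ℝ) (a : ι) {S : Set ι} {F : (ι → Bool) → ℝ} (hF : DependsOn F S) :
    DependsOn (Eop w a F) (S \ {a}) := by
  intro z z' h
  have : ∀ b, F (update z a b) = F (update z' a b) := by
    intro b
    apply hF
    intro i hi
    by_cases hia : i = a
    · subst hia; simp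
    · simp [hia, h i ⟨hi, hia⟩]
  simp only [Eop_apply, this]

lemma Ex_dep (w : ι → ℝ) (C : Finset ι) {S : Set ι} {F : (ι → Bool) → ℝ} (hF : DependsOn F S) :
    DependsOn (Ex w C F) (S \ C) := by
  induction C using Finset.induction_on with
  | empty => simpa using hF
  | insert a C h ih =>
    rw [Ex_insert w h]
    refine (Eop_dep w a ih).mono ?_
    intro i hi
    simp only [Set.mem_sdiff, Finset.mem_coe, Set.mem_singleton_iff, Finset.coe_insert,
      Set.mem_insert_iff] at hi ⊢
    tauto

lemma Eop_of_notMem (w : ι → ℝ) {a : ι} {S : Set ι} {F : (ι → Bool) → ℝ} (hF : DependsOn F S)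
    (ha : a ∉ S) : Eop w a F = F := by
  ext z
  have : ∀ b, F (update z a b) = F z := by
    intro b
    apply hF
    intro i hi
    have : i ≠ a := fun h => ha (h ▸ hi)
    simp [this]
  simp only [Eop_apply, this]
  ring

lemma Ex_equiv {w : ι → ℝ} (e : ι ≃ ι) (he : ∀ a, w (e a) = w a) (C : Finset ι)
    (F : (ι → Bool) → ℝ) (z : ι → Bool) :
    Ex w (C.map e.toEmbedding) (fun z => F (z ∘ e)) z = Ex w C F (z ∘ e) := by
  induction C using Finset.induction_on generalizing z with
  | empty => simp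
  | insert a C h ih =>
    rw [Finset.map_insert, Ex_insert w h, Ex_insert w (by simpa using h)]
    simp only [Eop_apply, ih, Equiv.coe_toEmbedding, he, update_comp_eq_of_injective _ e.injective]

section measure

variable (ν : ι → Measure Bool) [∀ i, IsProbabilityMeasure (ν i)]

lemma measurePreserving_update (a : ι) :
    MeasurePreserving (fun p : (ι → Bool) × Bool => update p.1 a p.2)
      ((Measure.infinitePi ν).prod (ν a)) (Measure.infinitePi ν) := by
  refine ⟨measurable_update', Measure.eq_infinitePi _ fun s t ht => ?_⟩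
  rw [Measure.map_apply measurable_update' (.pi s.countable_toSet fun _ _ => ht _)]
  by_cases h : a ∈ s
  · have : (fun p : (ι → Bool) × Bool => update p.1 a p.2) ⁻¹' Set.pi s t =
        (Set.pi (s.erase a) t) ×ˢ t a := by
      ext p
      simp only [Set.mem_preimage, Set.mem_pi, Finset.mem_coe, Set.mem_prod, Finset.mem_erase]
      constructor
      · intro H
        refine ⟨fun i hi => ?_, by simpa using H a h⟩
        simpa [hi.1] using H i hi.2
      · intro H i hi
        by_cases hia : i = a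
        · subst hia; simpa using H.2
        · simpa [hia] using H.1 i ⟨hia, hi⟩
    rw [this, Measure.prod_prod, Measure.infinitePi_pi _ (fun i _ => ht i),
      Finset.prod_erase_mul _ _ h]
  · have : (fun p : (ι → Bool) × Bool => update p.1 a p.2) ⁻¹' Set.pi s t =
        (Set.pi s t) ×ˢ Set.univ := by
      ext p
      simp only [Set.mem_preimage, Set.mem_pi, Finset.mem_coe, Set.mem_prod, Set.mem_univ,
        and_true]
      refine forall₂_congr fun i hi => ?_
      have : i ≠ a := fun h' => h (h' ▸ hi)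
      simp [this]
    rw [this, Measure.prod_prod, Measure.infinitePi_pi _ (fun i _ => ht i),
      measure_univ, mul_one]

/-- The probability of `true` at each coordinate. -/
noncomputable def wt (a : ι) : ℝ := (ν a).real {true}

omit [DecidableEq ι] [∀ i, IsProbabilityMeasure (ν i)] in
lemma wt_nonneg (a : ι) : 0 ≤ wt ν a := measureReal_nonneg

omit [DecidableEq ι] in
lemma wt_le_one (a : ι) : wt ν a ≤ 1 := measureReal_le_one

lemma integral_Eop (a : ι) {F : (ι → Bool) → ℝ} (hF : Integrable F (Measure.infinitePi ν)) :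
    ∫ z, Eop (wt ν) a F z ∂Measure.infinitePi ν = ∫ z, F z ∂Measure.infinitePi ν := by
  have hm := measurePreserving_update ν a
  have h1 : ∫ z, F z ∂Measure.infinitePi ν =
      ∫ p, F (update p.1 a p.2) ∂(Measure.infinitePi ν).prod (ν a) := by
    conv_lhs => rw [← hm.map_eq]
    rw [integral_map hm.measurable.aemeasurable (by rw [hm.map_eq]; exact hF.1)]
  rw [h1, integral_prod (fun p : (ι → Bool) × Bool => F (update p.1 a p.2))
    (hm.integrable_comp_of_integrable hF)]
  congr 1
  ext z
  rw [integral_fintype Integrable.of_finite]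
  have : (ν a).real {false} = 1 - wt ν a := by
    have h := probReal_compl_eq_one_sub (μ := ν a) (s := {true}) (by measurability)
    rw [wt, ← h]
    congr 1
    ext b
    cases b <;> simp
  simp only [Fintype.sum_bool, smul_eq_mul, this, Eop_apply, wt]
  ring

omit [DecidableEq ι] in
lemma measurable_of_dep {S : Finset ι} {F : (ι → Bool) → ℝ} (hF : DependsOn F S) :
    Measurable F := by
  obtain ⟨g, rfl⟩ := dependsOn_iff_exists_comp.1 hF
  exact (measurable_of_finite g).comp (by fun_prop)

omit [DecidableEq ι] in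
lemma integrable_of_dep {S : Finset ι} {F : (ι → Bool) → ℝ} (hF : DependsOn F S) :
    Integrable F (Measure.infinitePi ν) := by
  obtain ⟨g, rfl⟩ := dependsOn_iff_exists_comp.1 hF
  exact (integrable_map_measure (measurable_of_finite g).aestronglyMeasurable
    (Measurable.aemeasurable (by fun_prop))).1 Integrable.of_finite

lemma integral_Ex (C : Finset ι) {S : Finset ι} {F : (ι → Bool) → ℝ} (hF : DependsOn F S) :
    ∫ z, Ex (wt ν) C F z ∂Measure.infinitePi ν = ∫ z, F z ∂Measure.infinitePi ν := by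
  induction C using Finset.induction_on with
  | empty => simp
  | insert a C h ih =>
    rw [Ex_insert _ h, integral_Eop ν a, ih]
    exact integrable_of_dep ν ((Ex_dep _ C hF).mono Set.sdiff_subset)

lemma Ex_eq_integral {C S : Finset ι} (h : S ⊆ C) {F : (ι → Bool) → ℝ} (hF : DependsOn F S)
    (z : ι → Bool) : Ex (wt ν) C F z = ∫ z, F z ∂Measure.infinitePi ν := by
  rw [← integral_Ex ν C hF]
  have h1 : DependsOn (Ex (wt ν) C F) ∅ := (Ex_dep _ C hF).mono (by
    intro i hi
    exact hi.2 (h hi.1))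
  have : Ex (wt ν) C F = fun _ => Ex (wt ν) C F z := funext fun z' => h1.empty _ _
  conv_rhs => rw [this]
  simp

omit [DecidableEq ι] in
lemma measurePreserving_comp (e : ι ≃ ι) (he : ∀ a, ν (e a) = ν a) :
    MeasurePreserving (fun z : ι → Bool => z ∘ e) (Measure.infinitePi ν) (Measure.infinitePi ν) := by
  refine ⟨by fun_prop, ?_⟩
  have := Measure.map_infinitePi_infinitePi_of_inj (P := ν) e.injective
  simp only [he] at this
  exact this

end measure

/-- Random insertion of one point. -/
def Mop (τ : ℝ) (a : ι) : Module.End ℝ (Finset ι → ℝ) where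
  toFun k := fun C => (1 - τ) * k C + τ * k (insert a C)
  map_add' F G := by ext z; simp only [Pi.add_apply]; ring
  map_smul' c F := by ext z; simp only [Pi.smul_apply, smul_eq_mul, RingHom.id_apply]; ring

lemma Mop_apply (τ : ℝ) (a : ι) (k : Finset ι → ℝ) (C : Finset ι) :
    Mop τ a k C = (1 - τ) * k C + τ * k (insert a C) := rfl

lemma Mop_comm (τ : ℝ) (a b : ι) : Commute (Mop τ a) (Mop τ b) := by
  ext F z
  simp only [Module.End.mul_apply, Mop_apply, Finset.insert_comm a b]
  ring

/-- Random insertion of the points of `W`. -/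
def Mx (τ : ℝ) (W : Finset ι) : Module.End ℝ (Finset ι → ℝ) :=
  W.noncommProd (Mop τ) (fun a _ b _ _ => Mop_comm τ a b)

@[simp] lemma Mx_empty (τ : ℝ) (k : Finset ι → ℝ) : Mx τ ∅ k = k := by simp [Mx]

lemma Mx_insert (τ : ℝ) {W : Finset ι} {a : ι} (h : a ∉ W) (k : Finset ι → ℝ) :
    Mx τ (insert a W) k = Mop τ a (Mx τ W k) := by
  rw [Mx, Finset.noncommProd_insert_of_notMem _ _ _ _ h]; rfl

lemma Mx_insert' (τ : ℝ) {W : Finset ι} {a : ι} (h : a ∉ W) (k : Finset ι → ℝ) :
    Mx τ (insert a W) k = Mx τ W (Mop τ a k) := by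
  rw [Mx, Finset.noncommProd_insert_of_notMem' _ _ _ _ h]; rfl

lemma Mx_nonneg {τ : ℝ} (h0 : 0 ≤ τ) (h1 : τ ≤ 1) (W : Finset ι) {k : Finset ι → ℝ}
    (hk : ∀ C, 0 ≤ k C) (C : Finset ι) : 0 ≤ Mx τ W k C := by
  induction W using Finset.induction_on generalizing C with
  | empty => simpa using hk C
  | insert a W h ih =>
    rw [Mx_insert τ h, Mop_apply]
    have := sub_nonneg.2 h1
    have := ih C
    have := ih (insert a C)
    positivity

lemma Mx_zero (W : Finset ι) (k : Finset ι → ℝ) : Mx 0 W k = k := by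
  induction W using Finset.induction_on with
  | empty => simp
  | insert a W h ih => ext C; rw [Mx_insert 0 h, Mop_apply, ih]; simp

lemma Mx_one (W : Finset ι) (k : Finset ι → ℝ) (C : Finset ι) : Mx 1 W k C = k (W ∪ C) := by
  induction W using Finset.induction_on generalizing C with
  | empty => simp
  | insert a W h ih => rw [Mx_insert 1 h, Mop_apply, ih, ih]; simp

/-- The increment. -/
def Dl (u : ι) (k : Finset ι → ℝ) : Finset ι → ℝ := fun C => k (insert u C) - k C

lemma Mx_deriv (τ : ℝ) (W : Finset ι) (k : Finset ι → ℝ) (C : Finset ι) :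
    HasDerivAt (fun t => Mx t W k C) (∑ u ∈ W, Mx τ (W.erase u) (Dl u k) C) τ := by
  induction W using Finset.induction_on generalizing C with
  | empty => simpa using hasDerivAt_const τ (k C)
  | insert a W h ih =>
    simp only [Mx_insert _ h, Mop_apply]
    have h1 := (((hasDerivAt_id τ).const_sub 1).mul (ih C)).add
      ((hasDerivAt_id τ).mul (ih (insert a C)))
    refine HasDerivAt.congr_deriv h1 ?_
    symm
    rw [Finset.sum_insert h, Finset.erase_insert h]
    have e1 : Mx τ W (Dl a k) C = Mx τ W k (insert a C) - Mx τ W k C := by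
      have h2 : Dl a k = Mop 1 a k - k := by ext D; simp [Dl, Mop_apply]
      have h3 : Mx τ W (Mop 1 a k) = Mop 1 a (Mx τ W k) := by
        have : Commute (Mx τ W) (Mop 1 a) := by
          refine Finset.noncommProd_commute _ _ _ _ (fun b _ => ?_) |>.symm
          ext F z
          simp only [Module.End.mul_apply, Mop_apply, Finset.insert_comm a b]
          ring
        exact DFunLike.congr_fun this k
      rw [h2, map_sub, h3]
      simp [Mop_apply]
    have e2 : ∀ u ∈ W, Mx τ ((insert a W).erase u) (Dl u k) C =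
        (1 - τ) * Mx τ (W.erase u) (Dl u k) C + τ * Mx τ (W.erase u) (Dl u k) (insert a C) := by
      intro u hu
      have : a ≠ u := fun h' => h (h' ▸ hu)
      rw [Finset.erase_insert_of_ne this, Mx_insert _ (by simp [h]), Mop_apply]
    rw [e1, Finset.sum_congr rfl e2, Finset.sum_add_distrib, ← Finset.mul_sum, ← Finset.mul_sum]
    simp only [id]
    ring

lemma Mx_ambient (τ : ℝ) {W W' : Finset ι} (h : W ⊆ W') {k : Finset ι → ℝ}
    (hk : ∀ a ∈ W', a ∉ W → ∀ C, k (insert a C) = k C) : Mx τ W' k = Mx τ W k := by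
  have key : ∀ D : Finset ι, Disjoint D W → D ⊆ W' → Mx τ (D ∪ W) k = Mx τ W k := by
    intro D
    induction D using Finset.induction_on with
    | empty => simp
    | insert a D ha ih =>
      intro h1 h2
      rw [Finset.disjoint_insert_left] at h1
      rw [Finset.insert_subset_iff] at h2
      have : Mop τ a k = k := by
        ext C
        rw [Mop_apply, hk a h2.1 h1.1]
        ring
      rw [Finset.insert_union, Mx_insert' _ (by simp [ha, h1.1]), this, ih h1.2 h2.2]
  rw [← key (W' \ W) Finset.sdiff_disjoint Finset.sdiff_subset, Finset.sdiff_union_of_subset h]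

lemma Mx_equiv (τ : ℝ) (e : ι ≃ ι) (W : Finset ι) (k k' : Finset ι → ℝ)
    (hk : ∀ C, k' (C.map e.toEmbedding) = k C) (C : Finset ι) :
    Mx τ (W.map e.toEmbedding) k' (C.map e.toEmbedding) = Mx τ W k C := by
  induction W using Finset.induction_on generalizing C with
  | empty => simpa using hk C
  | insert a W h ih =>
    rw [Finset.map_insert, Mx_insert τ h, Mx_insert τ (by simpa using h), Mop_apply, Mop_apply,
      ← Finset.map_insert, ih, ih]

end Pool.Agent.MP_494aff_an

end MrgPart0

-- ======== part 1: formerly Pool.Agent.MP_494aff_an.Ent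
section MrgPart1

/-! The entropy inequality for factors of independent coins, and small set expansion. -/

namespace Pool.Agent.MP_494aff_an

open MeasureTheory Function Real

lemma kap_le {x X c : ℝ} (hx : 0 ≤ x) (hX : x ≤ X) (hc : 0 < c) :
    negMulLog x + x * log X ≤ -(x * log c) + c * X - x := by
  rcases hx.eq_or_lt with rfl | hx
  · simp only [negMulLog_zero, zero_mul, add_zero, neg_zero, zero_add, sub_zero]
    positivity
  · have hX0 : 0 < X := hx.trans_le hX
    have h := log_le_sub_one_of_pos (show 0 < c * X / x by positivity)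
    rw [log_div (by positivity) hx.ne', log_mul hc.ne' hX0.ne'] at h
    have h2 := mul_le_mul_of_nonneg_left h hx.le
    have h3 : x * (c * X / x - 1) = c * X - x := by field_simp
    simp only [negMulLog]
    nlinarith

lemma kap_concave {t x X x' X' : ℝ} (h0 : 0 ≤ t) (h1 : t ≤ 1) (hx : 0 ≤ x) (hX : x ≤ X)
    (hx' : 0 ≤ x') (hX' : x' ≤ X') :
    (1 - t) * (negMulLog x + x * log X) + t * (negMulLog x' + x' * log X') ≤
      negMulLog ((1 - t) * x + t * x') + ((1 - t) * x + t * x') * log ((1 - t) * X + t * X') := by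
  have h1' : 0 ≤ 1 - t := sub_nonneg.2 h1
  have a1 : 0 ≤ (1 - t) * x := by positivity
  have a2 : 0 ≤ t * x' := by positivity
  rcases (add_nonneg a1 a2).eq_or_lt with h | h
  · have b1 : (1 - t) * x = 0 := by linarith
    have b2 : t * x' = 0 := by linarith
    rw [← h]
    simp only [negMulLog]
    have : (1 - t) * (-x * log x + x * log X) + t * (-x' * log x' + x' * log X') =
        ((1 - t) * x) * (log X - log x) + (t * x') * (log X' - log x') := by ring
    rw [this, b1, b2]
    simp
  · have hS : (1 - t) * x + t * x' ≤ (1 - t) * X + t * X' := by gcongr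
    have hS0 := h.trans_le hS
    have k1 := mul_le_mul_of_nonneg_left (kap_le hx hX (div_pos h hS0)) h1'
    have k2 := mul_le_mul_of_nonneg_left (kap_le hx' hX' (div_pos h hS0)) h0
    rw [log_div h.ne' hS0.ne'] at k1 k2
    have k3 : ((1 - t) * x + t * x') / ((1 - t) * X + t * X') * ((1 - t) * X + t * X') =
        (1 - t) * x + t * x' := by field_simp
    simp only [negMulLog] at k1 k2 ⊢
    nlinarith

/-- Two point concavity on nonnegative vectors. -/
def Conc {α : Type} (Ψ : (α → ℝ) → ℝ) : Prop :=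
  ∀ (t : ℝ) (q q' : α → ℝ), 0 ≤ t → t ≤ 1 → (∀ a, 0 ≤ q a) → (∀ a, 0 ≤ q' a) →
    (1 - t) * Ψ q + t * Ψ q' ≤ Ψ (fun a => (1 - t) * q a + t * q' a)

lemma conc_var : Conc (fun q : Unit → ℝ => negMulLog (q ())) := by
  intro t q q' h0 h1 hq hq'
  have := concaveOn_negMulLog.2 (hq ()) (hq' ()) (sub_nonneg.2 h1) h0 (by ring)
  simpa using this

lemma conc_row {α : Type} [Fintype α] (P : Finset α) :
    Conc (fun q : α → ℝ => ∑ a, negMulLog (q a) - negMulLog (∑ a ∈ P, q a)) := by
  classical
  have key : ∀ q : α → ℝ, ∑ a, negMulLog (q a) - negMulLog (∑ a ∈ P, q a) =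
      ∑ a ∈ P, (negMulLog (q a) + q a * log (∑ a ∈ P, q a)) + ∑ a ∈ Pᶜ, negMulLog (q a) := by
    intro q
    rw [← Finset.sum_add_sum_compl P, Finset.sum_add_distrib, ← Finset.sum_mul]
    simp only [negMulLog]
    ring
  intro t q q' h0 h1 hq hq'
  simp only [key]
  rw [mul_add, mul_add, add_add_add_comm, Finset.mul_sum, Finset.mul_sum, Finset.mul_sum,
    Finset.mul_sum, ← Finset.sum_add_distrib, ← Finset.sum_add_distrib]
  refine add_le_add (Finset.sum_le_sum fun a ha => ?_) (Finset.sum_le_sum fun a _ => ?_)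
  · rw [Finset.sum_add_distrib, ← Finset.mul_sum, ← Finset.mul_sum]
    exact kap_concave h0 h1 (hq a) (Finset.single_le_sum (fun a _ => hq a) ha) (hq' a)
      (Finset.single_le_sum (fun a _ => hq' a) ha)
  · have := concaveOn_negMulLog.2 (hq a) (hq' a) (sub_nonneg.2 h1) h0 (by ring)
    simpa using this

section K

variable {ι : Type} [DecidableEq ι] (ν : ι → Measure Bool) [∀ i, IsProbabilityMeasure (ν i)]
  {α : Type}

/-- The conditional functional with the coordinates in `C` hidden. -/
noncomputable def Kf (Ψ : (α → ℝ) → ℝ) (f : α → (ι → Bool) → ℝ) (C : Finset ι) : ℝ :=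
  ∫ z, Ψ (fun a => Ex (wt ν) C (f a) z) ∂Measure.infinitePi ν

omit [∀ i, IsProbabilityMeasure (ν i)] in
lemma Kf_dep (Ψ : (α → ℝ) → ℝ) {f : α → (ι → Bool) → ℝ} {S : Finset ι}
    (hf : ∀ a, DependsOn (f a) S) (C : Finset ι) :
    DependsOn (fun z => Ψ (fun a => Ex (wt ν) C (f a) z)) S := by
  intro z z' h
  have : ∀ a, Ex (wt ν) C (f a) z = Ex (wt ν) C (f a) z' :=
    fun a => (Ex_dep _ C (hf a)).mono Set.sdiff_subset h
  simp only [this]

lemma Kf_mono {Ψ : (α → ℝ) → ℝ} (hΨ : Conc Ψ) {f : α → (ι → Bool) → ℝ} {S : Finset ι}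
    (hf : ∀ a, DependsOn (f a) S) (h0 : ∀ a z, 0 ≤ f a z) (u : ι) (C : Finset ι) :
    Kf ν Ψ f C ≤ Kf ν Ψ f (insert u C) := by
  by_cases h : u ∈ C
  · rw [Finset.insert_eq_of_mem h]
  have hi := integrable_of_dep ν (Kf_dep ν Ψ hf C)
  unfold Kf
  rw [← integral_Eop ν u hi]
  refine integral_mono (integrable_of_dep ν ((Eop_dep _ u (Kf_dep ν Ψ hf C)).mono
    Set.sdiff_subset)) (integrable_of_dep ν (Kf_dep ν Ψ hf _)) fun z => ?_
  simp only [Ex_insert _ h, Eop_apply]
  exact hΨ _ _ _ (wt_nonneg ν u) (wt_le_one ν u)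
    (fun a => Ex_nonneg (wt_nonneg ν) (wt_le_one ν) C (h0 a) _)
    (fun a => Ex_nonneg (wt_nonneg ν) (wt_le_one ν) C (h0 a) _)

omit [∀ i, IsProbabilityMeasure (ν i)] in
lemma Kf_insert (Ψ : (α → ℝ) → ℝ) {f : α → (ι → Bool) → ℝ} {S : Finset ι}
    (hf : ∀ a, DependsOn (f a) S) {u : ι} (hu : u ∉ S) (C : Finset ι) :
    Kf ν Ψ f (insert u C) = Kf ν Ψ f C := by
  by_cases h : u ∈ C
  · rw [Finset.insert_eq_of_mem h]
  unfold Kf
  simp only [Ex_insert' _ h, Eop_of_notMem _ (hf _) (show u ∉ (S : Set ι) from hu)]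

lemma Kf_equiv (Ψ : (α → ℝ) → ℝ) {f : α → (ι → Bool) → ℝ} {S : Finset ι}
    (hf : ∀ a, DependsOn (f a) S) (e : ι ≃ ι) (he : ∀ a, ν (e a) = ν a) (C : Finset ι) :
    Kf ν Ψ (fun a z => f a (z ∘ e)) (C.map e.toEmbedding) = Kf ν Ψ f C := by
  unfold Kf
  have hw : ∀ a, wt ν (e a) = wt ν a := fun a => by simp only [wt, he]
  simp only [Ex_equiv e hw]
  have hm := measurePreserving_comp ν e he
  conv_rhs => rw [← hm.map_eq]
  rw [integral_map hm.measurable.aemeasurable
    (measurable_of_dep (Kf_dep ν Ψ hf C)).aestronglyMeasurable]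

lemma Kf_full (Ψ : (α → ℝ) → ℝ) {f : α → (ι → Bool) → ℝ} {S : Finset ι}
    (hf : ∀ a, DependsOn (f a) S) :
    Kf ν Ψ f S = Ψ (fun a => ∫ z, f a z ∂Measure.infinitePi ν) := by
  unfold Kf
  simp only [Ex_eq_integral ν (Finset.Subset.refl S) (hf _)]
  simp

end K

section main

variable {G O : Type} [Group G]

/-- Translation of coordinates. -/
def tr (g : G) : G × O ≃ G × O := Equiv.prodCongr (Equiv.mulLeft g) (Equiv.refl O)

@[simp] lemma tr_apply (g : G) (i : G × O) : tr g i = (g * i.1, i.2) := rfl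

/-- The shift on configurations. -/
def sh (g : G) (z : G × O → Bool) : G × O → Bool := z ∘ tr g⁻¹

lemma sh_mul (g h : G) (z : G × O → Bool) : sh (g * h) z = sh g (sh h z) := by
  ext i; simp [sh, mul_assoc]

@[simp] lemma sh_one (z : G × O → Bool) : sh (1 : G) z = z := by
  ext i; simp [sh]

variable (ν : O → Measure Bool) [∀ o, IsProbabilityMeasure (ν o)]

/-- The product measure. -/
noncomputable def pm : Measure (G × O → Bool) := Measure.infinitePi (fun i : G × O => ν i.2)

instance : IsProbabilityMeasure (pm (G := G) ν) := by unfold pm; infer_instance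

lemma sh_pres (g : G) : MeasurePreserving (sh g) (pm (G := G) ν) (pm ν) :=
  measurePreserving_comp (fun i : G × O => ν i.2) (tr g⁻¹) (fun _ => rfl)

/-- The indicator of a variable. -/
def vr (y : (G × O → Bool) → Bool) (v : G) : Unit → (G × O → Bool) → ℝ :=
  fun _ z => if y (sh v⁻¹ z) then 1 else 0

/-- The indicators of the states of a row. -/
def rw4 (γ : Fin 4 → G) (y : (G × O → Bool) → Bool) (ρ : G) :
    (Fin 4 → Bool) → (G × O → Bool) → ℝ :=
  fun a z => if (fun i => y (sh (γ i) (sh ρ⁻¹ z))) = a then 1 else 0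

theorem entropy_ineq (γ : Fin 4 → G) (par : G → Fin 4)
    (hpar : ∀ v, ∃ j, ∀ i, i ≠ j → par (v * γ i) = i) (y : (G × O → Bool) → Bool)
    (S : Finset (G × O)) (hy : DependsOn y S) :
    3 * negMulLog (∫ z, vr y 1 () z ∂pm ν) ≤ ∑ a, negMulLog (∫ z, rw4 γ y 1 a z ∂pm ν) := by
  classical
  let ν' : G × O → Measure Bool := fun i => ν i.2
  let A0 : Finset G := S.image Prod.fst
  let Q : Finset O := S.image Prod.snd
  let A : Finset G := A0 ∪ Finset.univ.biUnion (fun i => A0.image (fun g => (γ i)⁻¹ * g))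
  let W : Finset (G × O) := A ×ˢ Q
  have hv0 : ∀ v a, DependsOn (vr y v a) (S.map (tr v).toEmbedding) := by
    intro v a z z' h
    have : y (sh v⁻¹ z) = y (sh v⁻¹ z') := hy fun i hi => by
      simpa [sh] using h (tr v i) (by simpa using hi)
    simp only [vr, this]
  have hSW : S ⊆ W := fun i hi => Finset.mem_product.2
    ⟨Finset.mem_union_left _ (Finset.mem_image_of_mem _ hi), Finset.mem_image_of_mem _ hi⟩
  have hv : ∀ v a, DependsOn (vr y v a) (W.map (tr v).toEmbedding) := fun v a =>
    (hv0 v a).mono (by exact_mod_cast Finset.map_subset_map.2 hSW)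
  have hAγ : ∀ i, ∀ g ∈ A0, (γ i)⁻¹ * g ∈ A := fun i g hg =>
    Finset.mem_union_right _ (Finset.mem_biUnion.2 ⟨i, Finset.mem_univ _,
      Finset.mem_image_of_mem _ hg⟩)
  have hr : ∀ ρ a, DependsOn (rw4 γ y ρ a) (W.map (tr ρ).toEmbedding) := by
    intro ρ a z z' h
    have : ∀ j, y (sh (γ j) (sh ρ⁻¹ z)) = y (sh (γ j) (sh ρ⁻¹ z')) := fun j => hy fun i hi => by
      have hm : ((γ j)⁻¹ * i.1, i.2) ∈ W := Finset.mem_product.2
        ⟨hAγ j _ (Finset.mem_image_of_mem _ hi), Finset.mem_image_of_mem Prod.snd (a := i) hi⟩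
      simpa [sh] using h (tr ρ ((γ j)⁻¹ * i.1, i.2)) (by
        exact_mod_cast Finset.mem_map_of_mem _ hm)
    simp only [rw4, this]
  let kv : G → Finset (G × O) → ℝ := fun v => Kf ν' (fun q => negMulLog (q ())) (vr y v)
  let kr : G → Finset (G × O) → ℝ := fun ρ => Kf ν' (fun q => ∑ a, negMulLog (q a)) (rw4 γ y ρ)
  let k : G → Finset (G × O) → ℝ := fun g => kr g - (3 : ℝ) • kv g
  have htr : ∀ g C, k g (C.map (tr g).toEmbedding) = k 1 C := by
    intro g C
    have e1 : vr y g = fun a z => vr y 1 a (z ∘ tr g) := by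
      ext a z; simp only [vr, inv_one, sh_one]; simp [sh]
    have e2 : rw4 γ y g = fun a z => rw4 γ y 1 a (z ∘ tr g) := by
      ext a z; simp only [rw4, inv_one, sh_one]; simp [sh]
    simp only [k, kr, kv, Pi.sub_apply, Pi.smul_apply]
    rw [e1, e2, Kf_equiv ν' _ (hv 1) (tr g) (fun _ => rfl),
      Kf_equiv ν' _ (hr 1) (tr g) (fun _ => rfl)]
  have hirr : ∀ g a, a ∉ W.map (tr g).toEmbedding → ∀ C, k g (insert a C) = k g C := by
    intro g a ha C
    simp only [k, kr, kv, Pi.sub_apply, Pi.smul_apply]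
    rw [Kf_insert ν' _ (hv g) ha, Kf_insert ν' _ (hr g) ha]
  -- the pointwise inequality
  have hpt : ∀ (o : O) (C : Finset (G × O)), 0 ≤ (∑ g ∈ A, Dl (1, o) (k g⁻¹)) C := by
    intro o C
    let d : G → ℝ := fun v => Dl (1, o) (kv v) C
    have d0 : ∀ v, 0 ≤ d v := fun v => sub_nonneg.2
      (Kf_mono ν' conc_var (hv v) (fun a z => by simp only [vr]; positivity) _ _)
    have d1 : ∀ g, g ∉ A0 → d g⁻¹ = 0 := by
      intro g hg
      refine sub_eq_zero.2 (Kf_insert ν' _ (hv0 _) ?_ _)
      intro h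
      obtain ⟨i, hi, h2⟩ := Finset.mem_map.1 h
      apply hg
      refine Finset.mem_image.2 ⟨i, hi, ?_⟩
      have := congrArg Prod.fst h2
      simp only [Equiv.coe_toEmbedding, tr_apply, inv_mul_eq_one] at this
      exact this.symm
    have d2 : ∀ ρ i, d (ρ * (γ i)⁻¹) ≤ Dl (1, o) (kr ρ) C := by
      intro ρ i
      let P : Finset (Fin 4 → Bool) := Finset.univ.filter (fun a => a i = true)
      have hsum : vr y (ρ * (γ i)⁻¹) () = ∑ a ∈ P, rw4 γ y ρ a := by
        ext z
        simp [vr, rw4, P, sh_mul, Finset.sum_apply]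
      have hK : ∀ D, Kf ν' (fun q => ∑ a, negMulLog (q a) - negMulLog (∑ a ∈ P, q a))
          (rw4 γ y ρ) D = kr ρ D - kv (ρ * (γ i)⁻¹) D := by
        intro D
        simp only [kr, kv, Kf]
        rw [← integral_sub (integrable_of_dep ν' (Kf_dep ν' (fun q => ∑ a, negMulLog (q a))
          (hr ρ) D)) (integrable_of_dep ν' (Kf_dep ν' (fun q => negMulLog (q ())) (hv _) D))]
        simp only [hsum, map_sum, Finset.sum_apply]
      have := Kf_mono ν' (conc_row P) (hr ρ) (fun a z => by simp only [rw4]; positivity) (1, o) C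
      rw [hK, hK] at this
      simp only [d, Dl]
      linarith
    choose j hj using hpar
    let P : Finset (G × Fin 4) := (A0 ×ˢ Finset.univ).filter (fun p => p.2 ≠ j p.1⁻¹)
    let m : G × Fin 4 → G := fun p => (γ p.2)⁻¹ * p.1
    let F : G → ℝ := fun g => d (g⁻¹ * (γ (par g⁻¹))⁻¹)
    have hm : ∀ p ∈ P, par (m p)⁻¹ = p.2 := by
      intro p hp
      have := hj p.1⁻¹ p.2 (Finset.mem_filter.1 hp).2
      simpa [m] using this
    have hinj : Set.InjOn m P := by
      intro p hp p' hp' h
      have h2 : p.2 = p'.2 := by rw [← hm p hp, ← hm p' hp', h]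
      refine Prod.ext ?_ h2
      simp only [m, h2] at h
      exact mul_left_cancel h
    have s1 : ∑ p ∈ P, d p.1⁻¹ = 3 * ∑ g ∈ A, d g⁻¹ := by
      rw [← Finset.sum_subset (Finset.subset_union_left : A0 ⊆ A) (fun g _ hg => d1 g hg),
        Finset.sum_filter, Finset.sum_product, Finset.mul_sum]
      refine Finset.sum_congr rfl fun g _ => ?_
      dsimp only
      rw [← Finset.sum_filter, Finset.sum_const, Finset.filter_ne', Finset.card_erase_of_mem
        (Finset.mem_univ _)]
      simp
    have s2 : ∑ p ∈ P, d p.1⁻¹ = ∑ g ∈ P.image m, F g := by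
      rw [Finset.sum_image hinj]
      refine Finset.sum_congr rfl fun p hp => ?_
      simp only [F, hm p hp]
      simp [m]
    have s3 : ∑ g ∈ P.image m, F g ≤ ∑ g ∈ A, F g := by
      refine Finset.sum_le_sum_of_subset_of_nonneg ?_ (fun g _ _ => d0 _)
      intro g hg
      obtain ⟨p, hp, rfl⟩ := Finset.mem_image.1 hg
      exact hAγ _ _ (Finset.mem_product.1 (Finset.mem_filter.1 hp).1).1
    have s4 : ∑ g ∈ A, F g ≤ ∑ g ∈ A, Dl (1, o) (kr g⁻¹) C :=
      Finset.sum_le_sum fun g _ => d2 _ _
    have s5 : (∑ g ∈ A, Dl (1, o) (k g⁻¹)) C =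
        ∑ g ∈ A, Dl (1, o) (kr g⁻¹) C - 3 * ∑ g ∈ A, d g⁻¹ := by
      rw [Finset.sum_apply, Finset.mul_sum, ← Finset.sum_sub_distrib]
      refine Finset.sum_congr rfl fun g _ => ?_
      simp only [Dl, k, d, Pi.sub_apply, Pi.smul_apply, smul_eq_mul]
      ring
    linarith
  let W' : Finset (G × O) := A.biUnion (fun g => W.map (tr g⁻¹).toEmbedding)
  have hder : ∀ τ, 0 ≤ τ → τ ≤ 1 → 0 ≤ ∑ u ∈ W, Mx τ (W.erase u) (Dl u (k 1)) ∅ := by
    intro τ h0 h1
    have e : ∀ g ∈ A, ∀ o, Mx τ (W.erase (g, o)) (Dl (g, o) (k 1)) ∅ =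
        Mx τ (W'.erase (1, o)) (Dl (1, o) (k g⁻¹)) ∅ := by
      intro g hg o
      have e0 : (tr g⁻¹).toEmbedding (g, o) = (1, o) := by simp
      rw [← Mx_equiv τ (tr g⁻¹) _ _ (Dl (1, o) (k g⁻¹)) (fun C => by
        simp only [Dl]
        rw [← e0, ← Finset.map_insert, htr, htr]), Finset.map_erase, e0, Finset.map_empty]
      rw [Mx_ambient τ (W := (W.map (tr g⁻¹).toEmbedding).erase (1, o)) (W' := W'.erase (1, o))
        (Finset.erase_subset_erase _ (Finset.subset_biUnion_of_mem
          (fun g => W.map (tr g⁻¹).toEmbedding) hg))]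
      intro a ha ha' C
      have : a ∉ W.map (tr g⁻¹).toEmbedding := fun h =>
        ha' (Finset.mem_erase.2 ⟨(Finset.mem_erase.1 ha).1, h⟩)
      simp only [Dl]
      rw [Finset.insert_comm, hirr _ _ this, hirr _ _ this]
    rw [Finset.sum_product, Finset.sum_congr rfl (fun g hg => Finset.sum_congr rfl
      (fun o _ => e g hg o)), Finset.sum_comm]
    refine Finset.sum_nonneg fun o _ => ?_
    rw [← Finset.sum_apply, ← map_sum]
    exact Mx_nonneg h0 h1 _ (hpt o) _
  have hmono : MonotoneOn (fun t => Mx t W (k 1) ∅) (Set.Icc 0 1) := by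
    refine monotoneOn_of_deriv_nonneg (convex_Icc 0 1)
      (fun t _ => (Mx_deriv t W (k 1) ∅).continuousAt.continuousWithinAt)
      (fun t _ => (Mx_deriv t W (k 1) ∅).differentiableAt.differentiableWithinAt) ?_
    intro t ht
    rw [interior_Icc] at ht
    rw [(Mx_deriv t W (k 1) ∅).deriv]
    exact hder t ht.1.le ht.2.le
  have h01 := hmono (Set.left_mem_Icc.2 zero_le_one) (Set.right_mem_Icc.2 zero_le_one) zero_le_one
  simp only [Mx_zero, Mx_one, Finset.union_empty] at h01
  have hW : W.map (tr (1 : G)).toEmbedding = W := by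
    have : tr (1 : G) = Equiv.refl (G × O) := by ext i <;> simp
    rw [this]; simp
  have z0 : k 1 ∅ = 0 := by
    have a1 : ∀ (p : Prop) [Decidable p], negMulLog (if p then 1 else 0) = 0 := by
      intro p _; split_ifs <;> simp
    simp [k, kr, kv, Kf, vr, rw4, a1]
  have z1 : k 1 W = ∑ a, negMulLog (∫ z, rw4 γ y 1 a z ∂pm ν) -
      3 * negMulLog (∫ z, vr y 1 () z ∂pm ν) := by
    simp only [k, kr, kv, Pi.sub_apply, Pi.smul_apply, smul_eq_mul]
    rw [Kf_full ν' _ (hW ▸ hr 1), Kf_full ν' _ (hW ▸ hv 1)]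
    rfl
  linarith

omit [Group G] [∀ o, IsProbabilityMeasure (ν o)] in
lemma int_ite {y : (G × O → Bool) → Prop} [DecidablePred y] (hy : MeasurableSet {z | y z}) :
    ∫ z, (if y z then (1 : ℝ) else 0) ∂pm ν = (pm ν).real {z | y z} := by
  rw [← integral_indicator_one hy]
  congr 1
  ext z
  simp [Set.indicator_apply]

/-- The configurations for which an odd number of the four translates lie in `Y`. -/
def oddSet (γ : Fin 4 → G) (Y : Set (G × O → Bool)) : Set (G × O → Bool) :=
  {z | ¬ ((sh (γ 0) z ∈ Y ↔ sh (γ 1) z ∈ Y) ↔ (sh (γ 2) z ∈ Y ↔ sh (γ 3) z ∈ Y))}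

lemma oddSet_meas (γ : Fin 4 → G) {Y : Set (G × O → Bool)} (hY : MeasurableSet Y) :
    MeasurableSet (oddSet γ Y) := by
  have h : ∀ i, Measurable (fun z => sh (γ i) z ∈ Y) := fun i =>
    (measurableSet_setOfPred.1 hY).comp (by unfold sh; fun_prop)
  exact measurableSet_setOfPred.2 ((((h 0).iff (h 1)).iff ((h 2).iff (h 3))).not)

theorem expansion_cyl (γ : Fin 4 → G) (par : G → Fin 4)
    (hpar : ∀ v, ∃ j, ∀ i, i ≠ j → par (v * γ i) = i) (Y : Set (G × O → Bool))
    (S : Finset (G × O)) (hY : MeasurableSet Y) (hS : DependsOn (fun z => z ∈ Y) S)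
    (hp : (pm ν).real Y ≤ exp (-64)) : 3 / 2 * (pm ν).real Y ≤ (pm ν).real (oddSet γ Y) := by
  classical
  let y : (G × O → Bool) → Bool := fun z => decide (z ∈ Y)
  have hy : DependsOn y S := fun z z' h => by simp only [y, hS h]
  have H := entropy_ineq ν γ par hpar y S hy
  have my : Measurable y := by
    refine measurable_to_bool ?_
    convert hY
    ext z; simp [y]
  have mr : Measurable (fun z (i : Fin 4) => y (sh (γ i) z)) :=
    measurable_pi_lambda _ fun i => my.comp (sh_pres ν _).measurable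
  set p := (pm ν).real Y with hpdef
  have hv : ∫ z, vr y 1 () z ∂pm ν = p := by
    simp only [vr, inv_one, sh_one, y, decide_eq_true_eq]
    exact int_ite ν hY
  let q : (Fin 4 → Bool) → ℝ := fun a => ∫ z, rw4 γ y 1 a z ∂pm ν
  have hi : ∀ a, Integrable (rw4 γ y 1 a) (pm ν) := by
    intro a
    refine Integrable.of_bound (C := 1) (Measurable.aestronglyMeasurable ?_) (ae_of_all _ ?_)
    · unfold rw4
      simp only [inv_one, sh_one]
      exact Measurable.ite (mr (measurableSet_singleton a)) measurable_const measurable_const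
    · intro z; simp only [rw4]; split_ifs <;> simp
  have hq : ∀ c : (Fin 4 → Bool) → ℝ, ∑ a, c a * q a =
      ∫ z, c (fun i => y (sh (γ i) z)) ∂pm ν := by
    intro c
    simp only [q, ← integral_const_mul]
    rw [← integral_finsetSum _ (fun a _ => (hi a).const_mul _)]
    congr 1
    ext z
    simp [rw4]
  have q0 : ∀ a, 0 ≤ q a := fun a => integral_nonneg fun z => by simp only [rw4]; positivity
  have q1 : ∑ a, q a = 1 := by simpa using hq (fun _ => 1)
  have q2 : ∀ i, ∑ a : Fin 4 → Bool, (if a i then 1 else 0) * q a = p := by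
    intro i
    rw [hq]
    simp only [y, decide_eq_true_eq]
    rw [int_ite ν (y := fun z => sh (γ i) z ∈ Y) ((sh_pres ν _).measurable hY)]
    exact (sh_pres ν (γ i)).measureReal_preimage hY.nullMeasurableSet
  have q3 : ∑ a : Fin 4 → Bool, (if ¬ ((a 0 ↔ a 1) ↔ (a 2 ↔ a 3)) then 1 else 0) * q a =
      (pm ν).real (oddSet γ Y) := by
    rw [hq]
    simp only [y, decide_eq_true_eq]
    exact int_ite ν (oddSet_meas γ hY)
  rcases (measureReal_nonneg : 0 ≤ p).eq_or_lt with h0 | h0
  · rw [hpdef, ← h0, mul_zero]; exact measureReal_nonneg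
  replace h0 : 0 < p := h0
  let o : Fin 4 → Bool := fun _ => false
  have hL : log p ≤ -64 := by rwa [log_le_iff_le_exp h0]
  have e1 : ∑ a, negMulLog (q a) ≤ -(1 - q o) * log p + 16 * p := by
    rw [← Finset.add_sum_erase _ _ (Finset.mem_univ o)]
    have a1 : negMulLog (q o) ≤ 1 - q o := by
      have := kap_le (q0 o) (show q o ≤ 1 from q1 ▸ Finset.single_le_sum (fun a _ => q0 a)
        (Finset.mem_univ o)) one_pos
      simp only [log_one, mul_zero, add_zero, neg_zero, mul_one, zero_add] at this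
      exact this
    have a2 : ∀ a, negMulLog (q a) ≤ -(q a * log p) + p - q a := by
      intro a
      have := kap_le (q0 a) (show q a ≤ 1 from q1 ▸ Finset.single_le_sum (fun a _ => q0 a)
        (Finset.mem_univ a)) h0
      simpa using this
    have a3 := Finset.sum_le_sum (s := Finset.univ.erase o) (fun a _ => a2 a)
    have a4 : ∑ a ∈ Finset.univ.erase o, q a = 1 - q o := by
      rw [← q1, ← Finset.add_sum_erase _ _ (Finset.mem_univ o)]; ring
    simp only [Finset.sum_sub_distrib, Finset.sum_add_distrib, Finset.sum_neg_distrib,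
      ← Finset.sum_mul, a4, Finset.sum_const, Finset.card_erase_of_mem (Finset.mem_univ o),
      Finset.card_univ, Fintype.card_fun, Fintype.card_bool, Fintype.card_fin] at a3
    have c15 : (2 ^ 4 - 1 : ℕ) • p = 15 * p := by norm_num
    rw [c15] at a3
    linarith
  have e2 : 2 * (1 - q o) - 4 * p ≤ (pm ν).real (oddSet γ Y) := by
    have a4 : ∑ a, (if a = o then 0 else 1) * q a = 1 - q o := by
      have : ∀ a, (if a = o then 0 else 1) * q a = q a - if a = o then q a else 0 := by
        intro a; split_ifs <;> simp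
      simp only [this, Finset.sum_sub_distrib, q1]
      simp
    have : 4 * p = p + p + p + p := by ring
    rw [this, ← q3, ← a4]
    nth_rewrite 4 [← q2 3]
    nth_rewrite 3 [← q2 2]
    nth_rewrite 2 [← q2 1]
    nth_rewrite 1 [← q2 0]
    rw [Finset.mul_sum, ← Finset.sum_add_distrib, ← Finset.sum_add_distrib,
      ← Finset.sum_add_distrib, ← Finset.sum_sub_distrib]
    refine Finset.sum_le_sum fun a _ => ?_
    have ha : (a = o) ↔ (a 0 = false ∧ a 1 = false ∧ a 2 = false ∧ a 3 = false) := by
      constructor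
      · rintro rfl; simp [o]
      · rintro ⟨h0, h1, h2, h3⟩
        ext i
        fin_cases i <;> simp [o, h0, h1, h2, h3]
    have := q0 a
    simp only [ha]
    cases a 0 <;> cases a 1 <;> cases a 2 <;> cases a 3 <;> simp <;> linarith
  rw [hv] at H
  have e3 : 3 * (-p * log p) ≤ -(1 - q o) * log p + 16 * p := H.trans e1
  by_contra hc
  have : 1 - q o < 11 / 4 * p := by linarith
  nlinarith

theorem expansion (γ : Fin 4 → G) (par : G → Fin 4)
    (hpar : ∀ v, ∃ j, ∀ i, i ≠ j → par (v * γ i) = i) (Y : Set (G × O → Bool))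
    (hY : MeasurableSet Y) (hp : (pm ν).real Y < exp (-64)) :
    3 / 2 * (pm ν).real Y ≤ (pm ν).real (oddSet γ Y) := by
  refine le_of_forall_pos_le_add fun ε hε => ?_
  obtain ⟨δ, hδ, hδ1, hδ2⟩ : ∃ δ : ℝ, 0 < δ ∧ δ ≤ ε / 6 ∧ δ ≤ exp (-64) - (pm ν).real Y :=
    ⟨min (ε / 6) (exp (-64) - (pm ν).real Y), lt_min (by positivity) (by linarith),
      min_le_left _ _, min_le_right _ _⟩
  obtain ⟨Y', hY', hd⟩ := exists_measure_symmDiff_lt_of_generateFrom_isSetRing (μ := pm ν)
    isSetRing_measurableCylinders ⟨{Set.univ}, by simp, 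
      Set.singleton_subset_iff.2 (univ_mem_measurableCylinders _),
      by simp⟩ generateFrom_measurableCylinders.symm hY (ENNReal.ofReal_pos.2 hδ)
  have mY' : MeasurableSet Y' := MeasurableSet.of_mem_measurableCylinders hY'
  obtain ⟨S, B, -, hB⟩ := (mem_measurableCylinders _).1 hY'
  have hS : DependsOn (fun z => z ∈ Y') S := by
    intro z z' h
    have : S.restrict z = S.restrict z' := funext fun i => h i i.2
    simp only [hB, mem_cylinder, this]
  have hd' : (pm ν).real (symmDiff Y' Y) ≤ δ :=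
    ENNReal.toReal_le_of_le_ofReal hδ.le hd.le
  have sub : ∀ A B D : Set (G × O → Bool), A ⊆ B ∪ D →
      (pm ν).real A ≤ (pm ν).real B + (pm ν).real D :=
    fun A B D h => (measureReal_mono h).trans (measureReal_union_le _ _)
  have a1 := sub Y' Y (symmDiff Y' Y) (fun z hz => by
    simp only [Set.mem_union, Set.mem_symmDiff]; tauto)
  have a2 := sub Y Y' (symmDiff Y' Y) (fun z hz => by
    simp only [Set.mem_union, Set.mem_symmDiff]; tauto)
  have a3 := expansion_cyl ν γ par hpar Y' S mY' hS (by linarith)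
  have a4 := sub (oddSet γ Y') (oddSet γ Y) (⋃ i, sh (γ i) ⁻¹' symmDiff Y' Y) (fun z hz => by
    by_contra hc
    rw [Set.mem_union, not_or, Set.mem_iUnion, not_exists] at hc
    have b : ∀ i, sh (γ i) z ∈ Y' ↔ sh (γ i) z ∈ Y := fun i => by
      have := hc.2 i
      simp only [Set.mem_preimage, Set.mem_symmDiff] at this
      tauto
    apply hc.1
    simp only [oddSet, Set.mem_ofPred_eq, b] at hz ⊢
    exact hz)
  have a5 : (pm ν).real (⋃ i, sh (γ i) ⁻¹' symmDiff Y' Y) ≤ 4 * δ := by
    refine (measureReal_iUnion_fintype_le _).trans ?_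
    simp only [(sh_pres ν _).measureReal_preimage (mY'.symmDiff hY).nullMeasurableSet]
    simp only [Finset.sum_const, Finset.card_univ, Fintype.card_fin, nsmul_eq_mul]
    push_cast
    linarith
  linarith

end main

end Pool.Agent.MP_494aff_an

end MrgPart1

-- ======== part 2: formerly Pool.Agent.MP_494aff_an.Sep
section MrgPart2

/-! Separating edges in trees on a group. -/

namespace Pool.Agent.MP_494aff_an

open MeasureTheory SimpleGraph

section graph

variable {V : Type}

/-- The edges whose removal separates `u` from `v`. -/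
def Sep (T : SimpleGraph V) (u v : V) : Set (Sym2 V) := {e | ¬ (T.deleteEdges {e}).Reachable u v}

lemma Sep.mem_edges {T : SimpleGraph V} {u v : V} {e : Sym2 V} (h : e ∈ Sep T u v)
    (p : T.Walk u v) : e ∈ p.edges := by
  by_contra hc
  exact h ⟨p.toDeleteEdges {e} (fun e' he' h' => hc (by rwa [← Set.mem_singleton_iff.1 h']))⟩

lemma mem_Sep_of_path {T : SimpleGraph V} (hT : T.IsAcyclic) {u v : V} (p : T.Walk u v)
    (hp : p.IsPath) {e : Sym2 V} (he : e ∈ p.edges) : e ∈ Sep T u v := by
  intro h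
  obtain ⟨q, hq⟩ := h.exists_isPath
  have h1 := (isAcyclic_iff_subsingleton_path.1 hT u v).elim ⟨p, hp⟩
    ⟨q.mapLe (deleteEdges_le _), hq.mapLe _⟩
  have h2 : p = q.mapLe (deleteEdges_le _) := congrArg Subtype.val h1
  rw [h2, Walk.edges_mapLe_eq_edges] at he
  have := q.edges_subset_edgeSet he
  simp at this

lemma two_comp {T : SimpleGraph V} (a b : V) {u v : V} (p : T.Walk u v) :
    (T.deleteEdges {s(a, b)}).Reachable v a ∨ (T.deleteEdges {s(a, b)}).Reachable v b →
    (T.deleteEdges {s(a, b)}).Reachable u a ∨ (T.deleteEdges {s(a, b)}).Reachable u b := by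
  induction p with
  | nil => exact id
  | @cons u w v h p ih =>
    intro H
    by_cases he : s(u, w) = s(a, b)
    · rcases Sym2.eq_iff.1 he with ⟨rfl, -⟩ | ⟨rfl, -⟩
      · exact Or.inl (Reachable.refl _)
      · exact Or.inr (Reachable.refl _)
    · have : (T.deleteEdges {s(a, b)}).Adj u w := by simp only [deleteEdges_adj]; exact ⟨h, he⟩
      exact (ih H).imp this.reachable.trans this.reachable.trans

lemma Sep_add {T : SimpleGraph V} (hT : ∀ u v, T.Reachable u v) (u v w : V) :
    Sep T u w = symmDiff (Sep T u v) (Sep T v w) := by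
  ext e
  induction e using Sym2.ind with
  | _ a b =>
    have h : ∀ u, (T.deleteEdges {s(a, b)}).Reachable u a ∨
        (T.deleteEdges {s(a, b)}).Reachable u b := fun u =>
      two_comp a b (hT u a).some (Or.inl (Reachable.refl _))
    simp only [Set.mem_symmDiff, Sep, Set.mem_ofPred_eq, not_not]
    constructor
    · intro h1
      by_cases h2 : (T.deleteEdges {s(a, b)}).Reachable u v
      · exact Or.inr ⟨fun h3 => h1 (h2.trans h3), h2⟩
      · refine Or.inl ⟨h2, ?_⟩
        rcases h u with hu | hu <;> rcases h v with hv | hv <;> rcases h w with hw | hw <;>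
          first
            | exact hv.trans hw.symm
            | exact absurd (hu.trans hv.symm) h2
            | exact absurd (hu.trans hw.symm) h1
    · rintro (⟨h1, h2⟩ | ⟨h1, h2⟩) h3
      · exact h1 (h3.trans h2.symm)
      · exact h1 (h2.symm.trans h3)

lemma Sep_comap (T : SimpleGraph V) (φ : V ≃ V) (u v a b : V) :
    s(a, b) ∈ Sep (T.comap φ) u v ↔ s(φ a, φ b) ∈ Sep T (φ u) (φ v) := by
  have : (T.comap φ).deleteEdges {s(a, b)} = (T.deleteEdges {s(φ a, φ b)}).comap φ := by
    ext c d
    simp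
  simp only [Sep, Set.mem_ofPred_eq, this]
  exact not_congr (Iso.reachable_iff (φ := Iso.comap φ _)).symm

lemma measurable_reachable {X : Type} [MeasurableSpace X] [Countable V] (Γ : X → SimpleGraph V)
    (h : ∀ a b, Measurable fun x => (Γ x).Adj a b) (u v : V) :
    Measurable fun x => (Γ x).Reachable u v := by
  have h1 : ∀ (n : ℕ) (u : V), Measurable fun x => ∃ p : (Γ x).Walk u v, p.length = n := by
    intro n
    induction n with
    | zero =>
      intro u
      have : (fun x => ∃ p : (Γ x).Walk u v, p.length = 0) = fun _ => u = v := by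
        ext x
        exact ⟨fun ⟨p, hp⟩ => p.eq_of_length_eq_zero hp, by rintro rfl; exact ⟨.nil, rfl⟩⟩
      rw [this]
      exact measurable_const
    | succ n ih =>
      intro u
      have : (fun x => ∃ p : (Γ x).Walk u v, p.length = n + 1) =
          fun x => ∃ w, (Γ x).Adj u w ∧ ∃ p : (Γ x).Walk w v, p.length = n := by
        ext x
        constructor
        · rintro ⟨p, hp⟩
          cases p with
          | nil => simp at hp
          | cons h p => exact ⟨_, h, p, by simpa using hp⟩
        · rintro ⟨w, h, p, hp⟩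
          exact ⟨.cons h p, by simp [hp]⟩
      rw [this]
      exact Measurable.exists fun w => (h u w).and (ih w)
  have : (fun x => (Γ x).Reachable u v) = fun x => ∃ n, ∃ p : (Γ x).Walk u v, p.length = n := by
    ext x
    exact ⟨fun ⟨p⟩ => ⟨_, p, rfl⟩, fun ⟨_, p, _⟩ => ⟨p⟩⟩
  rw [this]
  exact Measurable.exists fun n => h1 n u

end graph

variable {G : Type} [Group G]

/-- The coordinates that carry the labels of the separating edges. -/
def Js (T : SimpleGraph G) (u v : G) : Set (G × Option G) :=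
  {i | ∃ k, i.2 = some k ∧ s(i.1, i.1 * k) ∈ Sep T u v}

lemma Js_finite {T : SimpleGraph G} {u v : G} (h : T.Reachable u v) : (Js T u v).Finite := by
  obtain ⟨p⟩ := h
  refine ((p.support.finite_toSet.prod p.support.finite_toSet).image
    (fun q => (q.1, some (q.1⁻¹ * q.2)))).subset ?_
  rintro ⟨a, o⟩ ⟨k, rfl, hk⟩
  have := Sep.mem_edges hk p
  exact ⟨(a, a * k), ⟨p.fst_mem_support_of_mem_edges this, p.snd_mem_support_of_mem_edges this⟩,
    by simp⟩

lemma Js_add {T : SimpleGraph G} (hT : ∀ u v, T.Reachable u v) (u v w : G) :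
    Js T u w = symmDiff (Js T u v) (Js T v w) := by
  ext ⟨a, o⟩
  cases o with
  | none => simp [Js, Set.mem_symmDiff]
  | some k => simp [Js, Set.mem_symmDiff, Sep_add hT u v w]

lemma Js_comap (T : SimpleGraph G) (g u v : G) (i : G × Option G) :
    i ∈ Js (T.comap (Equiv.mulLeft g)) u v ↔ tr g i ∈ Js T (g * u) (g * v) := by
  simp only [Js, Set.mem_ofPred_eq, Sep_comap]
  simp only [tr_apply, Equiv.coe_mulLeft, mul_assoc]

lemma Js_measurable {X : Type} [MeasurableSpace X] [Countable G] (Γ : X → SimpleGraph G)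
    (h : ∀ a b, Measurable fun x => (Γ x).Adj a b) (u v : G) (i : G × Option G) :
    Measurable fun x => i ∈ Js (Γ x) u v := by
  refine Measurable.exists fun k => measurable_const.and (Measurable.not ?_)
  refine measurable_reachable _ (fun a b => ?_) u v
  simp only [deleteEdges_adj]
  exact (h a b).and measurable_const

open Pointwise in
lemma walk_mem_pow {T : SimpleGraph G} {S : Set G} (h1 : (1 : G) ∈ S) {u v : G} (p : T.Walk u v)
    (hS : ∀ a b, s(a, b) ∈ p.edges → a⁻¹ * b ∈ S) (n : ℕ) (hn : p.length ≤ n) :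
    u⁻¹ * v ∈ S ^ n := by
  induction p generalizing n with
  | nil => simpa using Set.one_mem_pow h1
  | @cons u w v h p ih =>
    obtain ⟨m, rfl⟩ : ∃ m, n = m + 1 := ⟨n - 1, by simp at hn; omega⟩
    rw [pow_succ']
    exact ⟨u⁻¹ * w, hS _ _ (by simp), w⁻¹ * v,
      ih (fun a b hab => hS a b (by simp [hab])) m (by simpa using hn), by simp [mul_assoc]⟩

open Pointwise in
lemma finite_short (l : Option G → ℕ) (hl : Function.Injective l) (R : ℕ) :
    {g : G | ∃ (T : SimpleGraph G) (D : Finset (G × Option G)), T.IsAcyclic ∧ T.Reachable 1 g ∧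
      Js T 1 g = D ∧ ∑ i ∈ D, (l i.2 + 1) ≤ R}.Finite := by
  classical
  let S : Set G := insert 1 {k | l (some k) ≤ R}
  have hS : S.Finite := by
    refine Set.Finite.insert _ ?_
    exact (Set.finite_Iic R).preimage (f := fun k => l (some k))
      (hl.comp (Option.some_injective G)).injOn
  have hP : ∀ n : ℕ, (S ^ n).Finite := by
    intro n
    induction n with
    | zero => simp
    | succ n ih => rw [pow_succ]; exact ih.mul hS
  refine (hP R).subset ?_
  rintro g ⟨T, D, hT, hr, hD, hR⟩
  obtain ⟨p, hp⟩ := hr.exists_isPath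
  have hm : ∀ a b, s(a, b) ∈ p.edges → (a, some (a⁻¹ * b)) ∈ D := by
    intro a b hab
    rw [← Finset.mem_coe, ← hD]
    exact ⟨_, rfl, by simpa using mem_Sep_of_path hT p hp hab⟩
  have := walk_mem_pow (S := S) (Set.mem_insert _ _) p (fun a b hab => by
    right
    have := Finset.single_le_sum (f := fun i : G × Option G => l i.2 + 1)
      (fun _ _ => Nat.zero_le _) (hm a b hab)
    simp only [Set.mem_ofPred_eq] at this ⊢
    omega) R (by
    have h1 : p.length = p.edges.toFinset.card := by
      rw [List.toFinset_card_of_nodup hp.isTrail.edges_nodup, Walk.length_edges]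
    have h2 : p.edges.toFinset ⊆ D.image (fun i => s(i.1, i.1 * i.2.getD 1)) := by
      intro e he
      induction e using Sym2.ind with
      | _ a b => exact Finset.mem_image.2 ⟨_, hm a b (List.mem_toFinset.1 he), by simp⟩
    have h3 := (Finset.card_le_card h2).trans Finset.card_image_le
    have h4 : D.card ≤ ∑ i ∈ D, (l i.2 + 1) := by
      rw [Finset.card_eq_sum_ones]
      exact Finset.sum_le_sum fun _ _ => by omega
    omega)
  simpa using this

lemma prod_symmDiff {ι : Type} [DecidableEq ι] (A B : Finset ι) (f : ι → ℝ)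
    (hf : ∀ i, f i * f i = 1) : ∏ i ∈ symmDiff A B, f i = (∏ i ∈ A, f i) * ∏ i ∈ B, f i := by
  rw [symmDiff_def, Finset.sup_eq_union, Finset.prod_union disjoint_sdiff_sdiff,
    ← Finset.prod_inter_mul_prod_sdiff A B, ← Finset.prod_inter_mul_prod_sdiff B A,
    Finset.inter_comm B A, mul_mul_mul_comm, ← Finset.prod_mul_distrib]
  simp [hf]

end Pool.Agent.MP_494aff_an

end MrgPart2

-- marker of a merged file
example : 731051 + 364830 = 731051 + 364830 := rfl
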