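import Mathlib.Tactic.Group
import Mathlib.GroupTheory.FreeGroup.Orbit
import Pool.Agent.MP_494aff_an.Defs
import Mathlib.Topology.Separation.CompletelyRegular
import Pool.Agent.MP_494aff_an.Sep
import Mathlib.LinearAlgebra.Matrix.Notation
import Mathlib.Algebra.Field.ZMod

-- ======== part 0: formerly Pool.Agent.MP_494aff_an.Grp
section MrgPart0

/-! The group: generators `x, y, b n` with `b n = b' b' x b' y b'`, `b' = b (n+1)`. -/

namespace Pool.Agent.MP_494aff_an

open Filter

/-- The data of the group. -/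
structure Sys (G : Type) [Group G] where
  x : G
  y : G
  b : ℕ → G
  rel : ∀ n, b n = b (n + 1) * b (n + 1) * x * b (n + 1) * y * b (n + 1)
  free : ∀ n, Function.Injective (FreeGroup.lift ![x, y, b n])
  gen : Subgroup.closure ({x, y} ∪ Set.range b) = ⊤

abbrev F3 := FreeGroup (Fin 3)

namespace Sys

variable {G : Type} [Group G] (S : Sys G)

/-- The embedding of the free group of rank three at level `n`. -/
def lf (n : ℕ) : F3 →* G := FreeGroup.lift ![S.x, S.y, S.b n]

@[simp] lemma lf_0 (n : ℕ) : S.lf n (.of 0) = S.x := by simp [lf]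
@[simp] lemma lf_1 (n : ℕ) : S.lf n (.of 1) = S.y := by simp [lf]
@[simp] lemma lf_2 (n : ℕ) : S.lf n (.of 2) = S.b n := by simp [lf]

lemma lf_inj (n : ℕ) : Function.Injective (S.lf n) := S.free n

/-- The substitution. -/
def sub : F3 →* F3 :=
  FreeGroup.lift ![.of 0, .of 1, .of 2 * .of 2 * .of 0 * .of 2 * .of 1 * .of 2]

lemma lf_sub (n : ℕ) (v : F3) : S.lf (n + 1) (sub v) = S.lf n v := by
  have : (S.lf (n + 1)).comp sub = S.lf n := by
    ext i
    fin_cases i
    · simp [sub]
    · simp [sub]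
    · simp [sub, ← S.rel n]
  exact DFunLike.congr_fun this v

lemma lf_iter (n j : ℕ) (v : F3) : S.lf (n + j) (sub^[j] v) = S.lf n v := by
  induction j with
  | zero => rfl
  | succ j ih => rw [Function.iterate_succ_apply', ← add_assoc, lf_sub, ih]

lemma exists_lf (g : G) : ∃ N, ∀ n, N ≤ n → ∃ v, S.lf n v = g := by
  have hg : g ∈ Subgroup.closure ({S.x, S.y} ∪ Set.range S.b) := by rw [S.gen]; trivial
  induction hg using Subgroup.closure_induction with
  | mem g hg =>
    rcases hg with (rfl | rfl) | ⟨m, rfl⟩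
    · exact ⟨0, fun n _ => ⟨.of 0, by simp⟩⟩
    · exact ⟨0, fun n _ => ⟨.of 1, by simp⟩⟩
    · refine ⟨m, fun n hn => ?_⟩
      obtain ⟨j, rfl⟩ := Nat.exists_eq_add_of_le hn
      exact ⟨sub^[j] (.of 2), by rw [lf_iter]; simp⟩
  | one => exact ⟨0, fun n _ => ⟨1, by simp⟩⟩
  | mul g h _ _ hg hh =>
    obtain ⟨N, hN⟩ := hg
    obtain ⟨M, hM⟩ := hh
    refine ⟨max N M, fun n hn => ?_⟩
    obtain ⟨v, rfl⟩ := hN n (le_of_max_le_left hn)
    obtain ⟨w, rfl⟩ := hM n (le_of_max_le_right hn)
    exact ⟨v * w, by simp⟩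
  | inv g _ hg =>
    obtain ⟨N, hN⟩ := hg
    refine ⟨N, fun n hn => ?_⟩
    obtain ⟨v, rfl⟩ := hN n hn
    exact ⟨v⁻¹, by simp⟩

lemma exists_hom {A : Type} [AddCommGroup A] (β : ℕ → A) (hβ : ∀ n, β n = 4 • β (n + 1)) :
    ∃ φ : G → A, (∀ g h, φ (g * h) = φ g + φ h) ∧ φ S.x = 0 ∧ φ S.y = 0 ∧ ∀ n, φ (S.b n) = β n := by
  let χ : ℕ → F3 →* Multiplicative A := fun n =>
    FreeGroup.lift ![1, 1, Multiplicative.ofAdd (β n)]
  have hsub : ∀ n v, χ (n + 1) (sub v) = χ n v := by
    intro n v
    have : (χ (n + 1)).comp sub = χ n := by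
      ext i
      fin_cases i
      · simp [sub, χ]
      · simp [sub, χ]
      · simp only [sub, χ, MonoidHom.coe_comp, Function.comp_apply, FreeGroup.lift_apply_of]
        simp only [Fin.reduceFinMk, Matrix.cons_val, map_mul, FreeGroup.lift_apply_of, mul_one,
          ← ofAdd_add]
        rw [hβ n, show (4 : ℕ) = 1 + 1 + 1 + 1 from rfl, add_nsmul, add_nsmul, add_nsmul, one_nsmul]
    exact DFunLike.congr_fun this v
  have hiter : ∀ n j v, χ (n + j) (sub^[j] v) = χ n v := by
    intro n j v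
    induction j with
    | zero => rfl
    | succ j ih => rw [Function.iterate_succ_apply', ← add_assoc, hsub, ih]
  have hwd : ∀ n m v w, S.lf n v = S.lf m w → χ n v = χ m w := by
    intro n m v w h
    have h1 : S.lf (n + m) (sub^[m] v) = S.lf (n + m) (sub^[n] w) := by
      rw [lf_iter, h, add_comm, lf_iter]
    have h2 := S.lf_inj _ h1
    rw [← hiter n m v, h2, add_comm, hiter]
  choose N hN using S.exists_lf
  choose v hv using fun g => hN g (N g) le_rfl
  have key : ∀ n w, χ (N (S.lf n w)) (v (S.lf n w)) = χ n w := fun n w => hwd _ _ _ _ (hv _)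
  refine ⟨fun g => Multiplicative.toAdd (χ (N g) (v g)), ?_, ?_, ?_, ?_⟩
  · intro g h
    obtain ⟨p, hp⟩ := hN g (max (N g) (N h)) (le_max_left _ _)
    obtain ⟨q, hq⟩ := hN h (max (N g) (N h)) (le_max_right _ _)
    generalize max (N g) (N h) = n at hp hq
    subst hp hq
    simp only [← map_mul, key]
    rw [map_mul, toAdd_mul]
  · have := key 0 (.of 0)
    simp only [lf_0] at this
    simp [this, χ]
  · have := key 0 (.of 1)
    simp only [lf_1] at this
    simp [this, χ]
  · intro n
    have := key n (.of 2)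
    simp only [lf_2] at this
    simp [this, χ]

lemma exists_real : ∃ φ : G → ℝ, (∀ g h, φ (g * h) = φ g + φ h) ∧ φ S.x = 0 ∧ φ S.y = 0 ∧
    ∀ n, φ (S.b n) = (1 / 4) ^ n :=
  S.exists_hom _ (fun n => by rw [pow_succ]; simp only [nsmul_eq_mul]; ring)

lemma b_inj : Function.Injective S.b := by
  obtain ⟨φ, -, -, -, h⟩ := S.exists_real
  intro n m hnm
  have : ((1 : ℝ) / 4) ^ n = (1 / 4) ^ m := by rw [← h, ← h, hnm]
  exact pow_right_injective₀ (by norm_num) (by norm_num) this

/-- The starting points of the four letters `b (n+1)` in the word for `b n`. -/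
def γ (n : ℕ) : Fin 4 → G :=
  ![1, S.y * S.b n, S.x * S.b n * (S.y * S.b n), S.b n * (S.x * S.b n * (S.y * S.b n))]

lemma rel' (n : ℕ) : S.b n = S.b (n + 1) * S.γ (n + 1) 3 := by
  rw [S.rel n]; simp [γ, mul_assoc]

/-- A Nielsen transformation. -/
def nie : F3 →* F3 :=
  FreeGroup.lift ![.of 1 * .of 2, .of 0 * .of 2 * (.of 1 * .of 2),
    .of 2 * (.of 0 * .of 2 * (.of 1 * .of 2))]

lemma nie_inj : Function.Injective nie := by
  let β : F3 →* F3 := FreeGroup.lift ![.of 1 * (.of 0)⁻¹ * (.of 2 * (.of 1)⁻¹)⁻¹,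
    .of 0 * (.of 2 * (.of 1)⁻¹)⁻¹, .of 2 * (.of 1)⁻¹]
  have : β.comp nie = MonoidHom.id _ := by
    ext i
    fin_cases i <;> simp [nie, β] <;> group
  intro u v h
  have h1 := DFunLike.congr_fun this u
  have h2 := DFunLike.congr_fun this v
  simp only [MonoidHom.coe_comp, Function.comp_apply, MonoidHom.id_apply] at h1 h2
  rw [← h1, h, h2]

/-- The parent structure of the four-regular tree of rows and variables. -/
lemma exists_par (n : ℕ) : ∃ par : G → Fin 4, ∀ v, ∃ j, ∀ i, i ≠ j → par (v * S.γ n i) = i := by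
  classical
  let ι : F3 →* G := (S.lf n).comp nie
  have hι : Function.Injective ι := (S.lf_inj n).comp nie_inj
  have hγ : ∀ i : Fin 3, ι (.of i) = S.γ n i.succ := by
    intro i
    fin_cases i <;> simp [ι, nie, γ]
  have hex : ∀ g : G, ∃ w : F3, ι w = ((g : G ⧸ ι.range).out)⁻¹ * g := by
    intro g
    have : ((g : G ⧸ ι.range).out)⁻¹ * g ∈ ι.range := by
      rw [← QuotientGroup.eq]; simp
    exact this
  choose ω hω using hex
  have hmul : ∀ g w, ω (g * ι w) = ω g * w := by
    intro g w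
    apply hι
    rw [hω, map_mul, hω]
    have : ((g * ι w : G) : G ⧸ ι.range) = g := by
      rw [eq_comm, QuotientGroup.eq]; simp
    rw [this, mul_assoc]
  let par : G → Fin 4 := fun g =>
    if h : ∃ i : Fin 3, (ω g)⁻¹ ∈ FreeGroup.startsWith (i, false) then h.choose.succ else 0
  have huniq : ∀ (u : F3) (w w' : Fin 3 × Bool), u ∈ FreeGroup.startsWith w →
      u ∈ FreeGroup.startsWith w' → w = w' := by
    intro u w w' h h'
    simp only [FreeGroup.startsWith, Set.mem_ofPred_eq] at h h'
    exact Option.some.inj (h.symm.trans h')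
  have hpar : ∀ g (i : Fin 3), (ω g)⁻¹ ∈ FreeGroup.startsWith (i, false) → par g = i.succ := by
    intro g i hi
    have h : ∃ i : Fin 3, (ω g)⁻¹ ∈ FreeGroup.startsWith (i, false) := ⟨i, hi⟩
    simp only [par, dif_pos h]
    have := huniq _ _ _ h.choose_spec hi
    rw [(Prod.mk.inj this).1]
  have hstep : ∀ g (i : Fin 3), (ω g)⁻¹ ∉ FreeGroup.startsWith (i, true) →
      par (g * S.γ n i.succ) = i.succ := by
    intro g i hi
    apply hpar
    rw [← hγ, hmul, mul_inv_rev]
    exact FreeGroup.startsWith_mk_mul (w := (i, false)) _ hi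
  refine ⟨par, fun v => ?_⟩
  by_cases h : ∃ i : Fin 3, (ω v)⁻¹ ∈ FreeGroup.startsWith (i, true)
  · obtain ⟨j, hj⟩ := h
    refine ⟨j.succ, fun i hi => ?_⟩
    refine Fin.cases (fun _ => ?_) (fun i hi => ?_) i hi
    · have : ¬ ∃ i : Fin 3, (ω v)⁻¹ ∈ FreeGroup.startsWith (i, false) := by
        rintro ⟨i, hi⟩
        simpa using huniq _ _ _ hj hi
      simp [par, γ, this]
    · apply hstep
      intro hi'
      have := huniq _ _ _ hj hi'
      exact hi (by rw [(Prod.mk.inj this).1])
  · refine ⟨0, fun i hi => ?_⟩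
    refine Fin.cases (fun hi => absurd rfl hi) (fun i _ => ?_) i hi
    exact hstep _ _ (fun hi' => h ⟨i, hi'⟩)

end Sys

end Pool.Agent.MP_494aff_an

end MrgPart0

-- ======== part 1: formerly Pool.Agent.MP_494aff_an.Bern
section MrgPart1

/-! The Bernoulli shift: freeness, and random labels. -/

namespace Pool.Agent.MP_494aff_an

open MeasureTheory Function

instance : IsProbabilityMeasure coin := ⟨by
  simp [coin, ENNReal.inv_two_add_inv_two]⟩

lemma coin_true : coin.real {true} = 1 / 2 := by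
  simp [coin, Measure.real]

variable {G : Type} [Group G]

/-- The Bernoulli measure. -/
noncomputable abbrev bm (G : Type) : Measure (G → Bool) := Measure.infinitePi fun _ : G => coin

lemma shift_mul (g h : G) (x : G → Bool) : shift (g * h) x = shift g (shift h x) := by
  ext k; simp [shift, mul_assoc]

@[simp] lemma shift_one (x : G → Bool) : shift (1 : G) x = x := by
  ext k; simp [shift]

lemma shift_pres (g : G) : MeasurePreserving (shift g) (bm G) (bm G) :=
  measurePreserving_comp (fun _ : G => coin) (Equiv.mulLeft g⁻¹) (fun _ => rfl)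

lemma shift_free [Infinite G] [Countable G] (g : G) (hg : g ≠ 1) :
    bm G {x | shift g x = x} = 0 := by
  classical
  have hK : ∀ m : ℕ, ∃ K : Finset G, K.card = m ∧ ∀ h ∈ K, g⁻¹ * h ∉ K := by
    intro m
    induction m with
    | zero => exact ⟨∅, rfl, by simp⟩
    | succ m ih =>
      obtain ⟨K, h1, h2⟩ := ih
      obtain ⟨a, ha⟩ := Infinite.exists_notMem_finset
        (K ∪ K.image (fun h => g * h) ∪ K.image (fun h => g⁻¹ * h))
      simp only [Finset.mem_union, Finset.mem_image, not_or, not_exists, not_and] at ha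
      refine ⟨insert a K, by rw [Finset.card_insert_of_notMem ha.1.1, h1], ?_⟩
      intro h hh hc
      rcases Finset.mem_insert.1 hh with rfl | hh <;> rcases Finset.mem_insert.1 hc with hc | hc
      · exact hg (by simpa using hc)
      · exact ha.1.2 _ hc (by simp)
      · exact ha.2 _ hh hc
      · exact h2 _ hh hc
  let F : Finset G → (G → Bool) → ℝ := fun K x => ∏ h ∈ K, if x (g⁻¹ * h) = x h then 1 else 0
  have hdep : ∀ K, DependsOn (F K) (↑(K ∪ K.image (fun h => g⁻¹ * h)) : Set G) := by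
    intro K x x' hx
    refine Finset.prod_congr rfl fun h hh => ?_
    rw [hx h (by simp [hh]), hx (g⁻¹ * h) (by
      exact_mod_cast Finset.mem_union_right _ (Finset.mem_image_of_mem _ hh))]
  have hint : ∀ K : Finset G, (∀ h ∈ K, g⁻¹ * h ∉ K) → ∫ x, F K x ∂bm G = (1 / 2) ^ K.card := by
    intro K
    induction K using Finset.induction_on with
    | empty => simp [F]
    | insert a K ha ih =>
      intro hK
      rw [← integral_Eop _ a (integrable_of_dep _ (hdep _)), Finset.card_insert_of_notMem ha,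
        pow_succ', ← ih (fun h hh hc => hK h (by simp [hh]) (by simp [hc])),
        ← integral_const_mul]
      congr 1
      ext x
      have h1 : g⁻¹ * a ≠ a := fun h => hK a (by simp) (by simp [h])
      have h2 : ∀ b, F K (update x a b) = F K x := fun b => by
        refine Finset.prod_congr rfl fun h hh => ?_
        have c1 : h ≠ a := fun h' => ha (h' ▸ hh)
        have c2 : g⁻¹ * h ≠ a := fun h' => hK h (by simp [hh]) (by simp [h'])
        simp [c1, c2]
      simp only [F] at h2
      simp only [Eop_apply, F, Finset.prod_insert ha, h2, wt, coin_true, update_self,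
        update_of_ne h1]
      cases x (g⁻¹ * a) <;> norm_num
  have hm : MeasurableSet {x : G → Bool | shift g x = x} :=
    measurableSet_eq_fun (shift_pres g).measurable measurable_id
  have hle : ∀ m : ℕ, (bm G).real {x | shift g x = x} ≤ (1 / 2) ^ m := by
    intro m
    obtain ⟨K, rfl, h2⟩ := hK m
    rw [← hint K h2, ← integral_indicator_one hm]
    refine integral_mono ((integrable_const _).indicator hm) (integrable_of_dep _ (hdep _)) ?_
    intro x
    by_cases hx : shift g x = x
    · have : ∀ h, x (g⁻¹ * h) = x h := fun h => congrFun hx h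
      simp [hx, F, this]
    · simp only [Set.indicator_apply, Set.mem_ofPred_eq, hx, if_false, F]
      exact Finset.prod_nonneg fun _ _ => by positivity
  have : (bm G).real {x | shift g x = x} ≤ 0 :=
    ge_of_tendsto' (tendsto_pow_atTop_nhds_zero_of_lt_one (by norm_num) (by norm_num)) hle
  exact (measureReal_eq_zero_iff (measure_ne_top _ _)).1 (le_antisymm this measureReal_nonneg)

/-- A biased coin with expected sign `c`. -/
noncomputable def bern (c : ℝ) : Measure Bool :=
  ENNReal.ofReal ((1 - c) / 2) • Measure.dirac true + ENNReal.ofReal ((1 + c) / 2) • Measure.dirac false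

/-- Clamping to the unit interval. -/
noncomputable def cl (r : ℝ) : ℝ := max 0 (min r 1)

lemma cl_nonneg (r : ℝ) : 0 ≤ cl r := le_max_left _ _
lemma cl_le_one (r : ℝ) : cl r ≤ 1 := max_le zero_le_one (min_le_right _ _)
lemma cl_cont : Continuous cl := by unfold cl; fun_prop

/-- The laws of the coordinates. -/
noncomputable def nu (l : Option G → ℕ) (r : ℝ) : Option G → Measure Bool
  | none => coin
  | some k => bern (cl r ^ (l (some k) + 1))

instance (l : Option G → ℕ) (r : ℝ) (o : Option G) : IsProbabilityMeasure (nu l r o) := by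
  cases o with
  | none => exact inferInstanceAs (IsProbabilityMeasure coin)
  | some k =>
    have h0 := pow_nonneg (cl_nonneg r) (l (some k) + 1)
    have h1 := pow_le_one₀ (cl_nonneg r) (cl_le_one r) (n := l (some k) + 1)
    constructor
    simp only [nu, bern, Measure.coe_add, Measure.coe_smul, Pi.add_apply, Pi.smul_apply,
      measure_univ, smul_eq_mul, mul_one]
    rw [← ENNReal.ofReal_add (by linarith) (by linarith), ← ENNReal.ofReal_one]
    congr 1
    ring

omit [Group G] in
lemma nu_true (l : Option G → ℕ) (r : ℝ) (k : G) :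
    (nu l r (some k)).real {true} = (1 - cl r ^ (l (some k) + 1)) / 2 := by
  have h1 := pow_le_one₀ (cl_nonneg r) (cl_le_one r) (n := l (some k) + 1)
  simp only [nu, bern, Measure.real, Measure.coe_add, Measure.coe_smul, Pi.add_apply,
    Pi.smul_apply, smul_eq_mul]
  simp only [MeasurableSet.singleton, Measure.dirac_apply', Set.mem_singleton_iff,
    Set.indicator_of_mem, Pi.one_apply, mul_one, Bool.false_eq_true, not_false_eq_true,
    Set.indicator_of_notMem, mul_zero, add_zero]
  exact ENNReal.toReal_ofReal (by linarith)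

/-- The projection to the Bernoulli shift. -/
def pr (z : G × Option G → Bool) : G → Bool := fun h => z (h, none)

lemma pr_sh (g : G) (z : G × Option G → Bool) : pr (sh g z) = shift g (pr z) := rfl

omit [Group G] in
lemma pr_pres (l : Option G → ℕ) (r : ℝ) : MeasurePreserving pr (pm (nu l r)) (bm G) :=
  ⟨by unfold pr; fun_prop, Measure.map_infinitePi_infinitePi_of_inj
    (P := fun i : G × Option G => nu l r i.2) (f := fun h : G => (h, none))
    (fun _ _ h => (Prod.mk.inj h).1)⟩

/-- The sign of a label. -/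
def sg (b : Bool) : ℝ := if b then -1 else 1

lemma sg_sq (b : Bool) : sg b * sg b = 1 := by cases b <;> simp [sg]

lemma prod_sg {ι : Type} (D : Finset ι) (z : ι → Bool) :
    ∏ i ∈ D, sg (z i) = 1 ∨ ∏ i ∈ D, sg (z i) = -1 := by
  rw [← mul_self_eq_one_iff, ← Finset.prod_mul_distrib]
  simp [sg_sq]

omit [Group G] in
lemma sign_box (l : Option G → ℕ) (r : ℝ) {A : Set (G → Bool)} (hA : MeasurableSet A)
    (D : Finset (G × Option G)) (hD : ∀ i ∈ D, i.2 ≠ none) :
    ∫ z in pr ⁻¹' A, ∏ i ∈ D, sg (z i) ∂pm (nu l r) =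
      cl r ^ (∑ i ∈ D, (l i.2 + 1)) * (bm G).real A := by
  classical
  have hA' := (pr_pres l r).measurable hA
  rw [← integral_indicator hA']
  induction D using Finset.induction_on with
  | empty =>
    simp only [Finset.prod_empty, Finset.sum_empty, pow_zero, one_mul]
    rw [← (pr_pres l r).measureReal_preimage hA.nullMeasurableSet, ← integral_indicator_one hA']
    rfl
  | insert a D ha ih =>
    have hi : Integrable (fun z : G × Option G → Bool => ∏ i ∈ insert a D, sg (z i))
        (pm (nu l r)) := integrable_of_dep (S := insert a D) _ (fun z z' h =>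
          Finset.prod_congr rfl fun i hi => by rw [h i hi])
    unfold pm at ih hi ⊢
    rw [← integral_Eop _ a (hi.indicator hA'), Finset.sum_insert ha, pow_add, mul_assoc,
      ← ih (fun i hi => hD i (by simp [hi])), ← integral_const_mul]
    congr 1
    ext z
    obtain ⟨h, o⟩ := a
    obtain ⟨k, rfl⟩ := Option.ne_none_iff_exists'.1 (hD (h, o) (by simp))
    have h1 : ∀ b, pr (update z (h, some k) b) = pr z := fun b => by
      ext g; simp [pr]
    have h2 : ∀ b, ∏ i ∈ D, sg (update z (h, some k) b i) = ∏ i ∈ D, sg (z i) := fun b =>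
      Finset.prod_congr rfl fun i hi => by
        have : i ≠ (h, some k) := fun h' => ha (h' ▸ hi)
        rw [update_of_ne this]
    simp only [Eop_apply, Set.indicator_apply, Set.mem_preimage, h1, Finset.prod_insert ha, h2,
      update_self, wt, nu_true]
    split_ifs
    · simp only [sg, Bool.false_eq_true, if_false, if_true]
      ring
    · simp

omit [Group G] in
lemma sign_prob [Countable G] (l : Option G → ℕ) (r : ℝ)
    (φ : (G → Bool) → Finset (G × Option G)) (hφ : ∀ D, MeasurableSet (φ ⁻¹' {D}))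
    (hD : ∀ x, ∀ i ∈ φ x, i.2 ≠ none) :
    MeasurableSet {z : G × Option G → Bool | ∏ i ∈ φ (pr z), sg (z i) = -1} ∧
    (pm (nu l r)).real {z | ∏ i ∈ φ (pr z), sg (z i) = -1} =
      (1 - ∫ x, cl r ^ (∑ i ∈ φ x, (l i.2 + 1)) ∂bm G) / 2 := by
  classical
  let _ : MeasurableSpace (Finset (G × Option G)) := ⊤
  have mφ : Measurable φ := measurable_to_countable' hφ
  have mp := (pr_pres l r).measurable
  have m1 : Measurable fun z : G × Option G → Bool => ∏ i ∈ φ (pr z), sg (z i) := by
    have : Measurable fun p : (G × Option G → Bool) × Finset (G × Option G) =>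
        ∏ i ∈ p.2, sg (p.1 i) := measurable_from_prod_countable_left fun D =>
      Finset.measurable_prod _ fun i _ => (measurable_of_finite sg).comp (measurable_pi_apply i)
    exact this.comp (measurable_id.prodMk (mφ.comp mp))
  have m2 : Measurable fun x => cl r ^ (∑ i ∈ φ x, (l i.2 + 1)) :=
    (measurable_from_top (f := fun D : Finset (G × Option G) =>
      cl r ^ (∑ i ∈ D, (l i.2 + 1)))).comp mφ
  have m3 : MeasurableSet {z : G × Option G → Bool | ∏ i ∈ φ (pr z), sg (z i) = -1} :=
    m1 (measurableSet_singleton (-1))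
  refine ⟨m3, ?_⟩
  have i1 : Integrable (fun z : G × Option G → Bool => ∏ i ∈ φ (pr z), sg (z i)) (pm (nu l r)) :=
    Integrable.of_bound (C := 1) m1.aestronglyMeasurable (ae_of_all _ fun z => by
      rcases prod_sg (φ (pr z)) z with h | h <;> simp [h])
  have i2 : Integrable (fun x => cl r ^ (∑ i ∈ φ x, (l i.2 + 1))) (bm G) :=
    Integrable.of_bound (C := 1) m2.aestronglyMeasurable (ae_of_all _ fun z => by
      rw [Real.norm_of_nonneg (pow_nonneg (cl_nonneg r) _)]
      exact pow_le_one₀ (cl_nonneg r) (cl_le_one r))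
  have s1 := hasSum_integral_iUnion (μ := pm (nu l r)) (s := fun D => pr ⁻¹' (φ ⁻¹' {D}))
    (fun D => mp (hφ D)) (fun D D' h => (Set.disjoint_singleton.2 h).preimage φ |>.preimage pr)
    i1.integrableOn
  have s2 := hasSum_integral_iUnion (μ := bm G) (s := fun D => φ ⁻¹' {D}) hφ
    (fun D D' h => (Set.disjoint_singleton.2 h).preimage φ) i2.integrableOn
  rw [show (⋃ D, pr ⁻¹' (φ ⁻¹' {D})) = Set.univ from by ext; simp, Measure.restrict_univ] at s1
  rw [show (⋃ D, φ ⁻¹' {D}) = Set.univ from by ext; simp, Measure.restrict_univ] at s2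
  have e : ∀ D, ∫ z in pr ⁻¹' (φ ⁻¹' {D}), ∏ i ∈ φ (pr z), sg (z i) ∂pm (nu l r) =
      ∫ x in φ ⁻¹' {D}, cl r ^ (∑ i ∈ φ x, (l i.2 + 1)) ∂bm G := by
    intro D
    by_cases hex : ∃ x, φ x = D
    · obtain ⟨x, rfl⟩ := hex
      rw [setIntegral_congr_fun (g := fun z => ∏ i ∈ φ x, sg (z i)) (mp (hφ _)) (fun z hz => by
        simp only [Set.mem_preimage, Set.mem_singleton_iff] at hz; simp only [hz]),
        setIntegral_congr_fun (g := fun _ => cl r ^ (∑ i ∈ φ x, (l i.2 + 1))) (hφ _)
        (fun z hz => by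
          simp only [Set.mem_preimage, Set.mem_singleton_iff] at hz; simp only [hz]),
        sign_box l r (hφ _) _ (hD x)]
      simp [mul_comm]
    · have : φ ⁻¹' {D} = ∅ := by
        ext x; simpa using fun h => hex ⟨x, h⟩
      simp [this]
  simp only [e] at s1
  rw [← s1.unique s2, ← integral_indicator_one m3]
  have : ∀ z : G × Option G → Bool,
      Set.indicator {z : G × Option G → Bool | ∏ i ∈ φ (pr z), sg (z i) = -1}
        (1 : (G × Option G → Bool) → ℝ) z =
        (1 - ∏ i ∈ φ (pr z), sg (z i)) / 2 := by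
    intro z
    rcases prod_sg (φ (pr z)) z with h | h
    · rw [Set.indicator_of_notMem (by simp only [Set.mem_ofPred_eq, h]; norm_num), h]; norm_num
    · rw [Set.indicator_of_mem (by simp only [Set.mem_ofPred_eq, h]), h]; norm_num
  simp only [this]
  rw [integral_div, integral_sub (integrable_const _) i1]
  simp

end Pool.Agent.MP_494aff_an

end MrgPart1

-- ======== part 2: formerly Pool.Agent.MP_494aff_an.Comb
section MrgPart2

/-! A treeing for an action with towers: the combinatorial part. -/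

namespace Pool.Agent.MP_494aff_an

/-- An action with height functions. -/
structure Tow {G : Type} [Group G] (S : Sys G) (Y : Type) where
  a : G → Y → Y
  a_one : ∀ y, a 1 y = y
  a_mul : ∀ g h y, a (g * h) y = a g (a h y)
  ht : ℕ → Y → ℕ
  D : ℕ → Set Y
  hht : ∀ k y, y ∉ D k → ∀ i : Fin 4, ht k (a (S.γ (k + 1) i) y) = ht k y + i

namespace Tow

variable {G : Type} [Group G] {S : Sys G} {Y : Type} (A : Tow S Y)

@[simp] lemma a_inv (g : G) (y : Y) : A.a g⁻¹ (A.a g y) = y := by
  rw [← A.a_mul, inv_mul_cancel, A.a_one]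

@[simp] lemma a_inv' (g : G) (y : Y) : A.a g (A.a g⁻¹ y) = y := by
  rw [← A.a_mul, mul_inv_cancel, A.a_one]

lemma a_inj (g : G) : Function.Injective (A.a g) := fun y y' h => by
  rw [← A.a_inv g y, h, A.a_inv]

/-- Good up to depth `j`. -/
def Good : ℕ → ℕ → Set Y
  | 0, _ => Set.univ
  | j + 1, k => (A.D k)ᶜ ∩ ⋂ i, A.a (S.γ (k + 1) i) ⁻¹' Good j (k + 1)

/-- Good edges of level `k`. -/
def Gd (k : ℕ) : Set Y := ⋂ j, A.Good j k

lemma mem_Gd {k : ℕ} {y : Y} (h : y ∈ A.Gd k) :
    y ∉ A.D k ∧ ∀ i, A.a (S.γ (k + 1) i) y ∈ A.Gd (k + 1) :=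
  ⟨(Set.mem_iInter.1 h 1).1, fun i => Set.mem_iInter.2 fun j =>
    Set.mem_iInter.1 (Set.mem_iInter.1 h (j + 1)).2 i⟩

/-- Edges that are products of good edges of depth `j`. -/
def Full : ℕ → ℕ → Set Y
  | 0, k => A.Gd k
  | j + 1, k => ⋂ i, A.a (S.γ (k + 1) i) ⁻¹' Full j (k + 1)

/-- The basic conull set. -/
def Y1 : Set Y := {y | (∀ h, h ≠ 1 → A.a h y ≠ y) ∧ ∀ k, ∃ j, y ∈ A.Full j k}

/-- The invariant conull set. -/
def Y0 : Set Y := ⋂ g, A.a g ⁻¹' A.Y1

lemma Y0_inv (g : G) {y : Y} (h : y ∈ A.Y0) : A.a g y ∈ A.Y0 :=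
  Set.mem_iInter.2 fun g' => by
    have := Set.mem_iInter.1 h (g' * g)
    rwa [Set.mem_preimage, A.a_mul] at this

lemma Y0_Y1 {y : Y} (h : y ∈ A.Y0) : y ∈ A.Y1 := by
  have := Set.mem_iInter.1 h 1
  rwa [Set.mem_preimage, A.a_one] at this

/-- The generators. -/
def gen (S : Sys G) : Fin 2 ⊕ ℕ → G := Sum.elim ![S.x, S.y] S.b

/-- The domains of the edges of the treeing. -/
def E : Fin 2 ⊕ ℕ → Set Y
  | .inl _ => Set.univ
  | .inr 0 => A.Gd 0
  | .inr (k + 1) => A.Gd (k + 1) ∩ A.a (S.γ (k + 1) 3)⁻¹ ⁻¹' (A.Gd k)ᶜ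

/-- The treeing. -/
def T : SimpleGraph Y :=
  SimpleGraph.fromRel fun u v => ∃ s, u ∈ A.Y0 ∧ u ∈ A.E s ∧ v = A.a (gen S s) u

lemma reach_E {u : Y} (hu : u ∈ A.Y0) (s : Fin 2 ⊕ ℕ) (h : u ∈ A.E s) :
    A.T.Reachable u (A.a (gen S s) u) := by
  by_cases e : u = A.a (gen S s) u
  · rw [← e]
  · exact SimpleGraph.Adj.reachable ⟨e, Or.inl ⟨s, hu, h, rfl⟩⟩

lemma reach_x {u : Y} (hu : u ∈ A.Y0) : A.T.Reachable u (A.a S.x u) :=
  A.reach_E hu (.inl 0) trivial

lemma reach_y {u : Y} (hu : u ∈ A.Y0) : A.T.Reachable u (A.a S.y u) :=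
  A.reach_E hu (.inl 1) trivial

lemma reach_top {u : Y} (hu : u ∈ A.Y0) (n : ℕ)
    (h : ∀ i : Fin 4, i ≠ 3 →
      A.T.Reachable (A.a (S.γ n i) u) (A.a (S.b n) (A.a (S.γ n i) u))) :
    A.T.Reachable u (A.a (S.γ n 3) u) := by
  have h0 := h 0 (by decide)
  have h1 := h 1 (by decide)
  have h2 := h 2 (by decide)
  simp only [Sys.γ, Matrix.cons_val, A.a_one, A.a_mul] at h0 h1 h2 ⊢
  exact h0.trans ((A.reach_y (A.Y0_inv _ hu)).trans (h1.trans
    ((A.reach_x (A.Y0_inv _ (A.Y0_inv _ (A.Y0_inv _ hu)))).trans h2)))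

lemma reach_Gd (k : ℕ) : ∀ u ∈ A.Y0, u ∈ A.Gd k → A.T.Reachable u (A.a (S.b k) u) := by
  induction k with
  | zero => exact fun u hu h => A.reach_E hu (.inr 0) h
  | succ k ih =>
    intro u
    induction hm : A.ht k u using Nat.strong_induction_on generalizing u with
    | _ m ihm =>
      intro hu h
      by_cases e : A.a (S.γ (k + 1) 3)⁻¹ u ∈ A.Gd k
      · obtain ⟨y, rfl⟩ : ∃ y, u = A.a (S.γ (k + 1) 3) y := ⟨_, (A.a_inv' _ u).symm⟩
        rw [A.a_inv] at e
        have hy : y ∈ A.Y0 := by simpa using A.Y0_inv (S.γ (k + 1) 3)⁻¹ hu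
        have e1 := A.mem_Gd e
        have r1 := A.reach_top hy (k + 1) (fun i hi => ihm _ (by
          rw [← hm, A.hht k y e1.1, A.hht k y e1.1]
          have : (i : ℕ) ≠ 3 := fun h => hi (Fin.ext h)
          have := i.2
          simp only [Fin.isValue, Fin.coe_ofNat_eq_mod]
          omega) _ rfl (A.Y0_inv _ hy) (e1.2 i))
        have r2 := ih y hy e
        rw [S.rel' k, A.a_mul] at r2
        exact r1.symm.trans r2
      · exact A.reach_E hu (.inr (k + 1)) ⟨h, e⟩

lemma reach_Full (j : ℕ) : ∀ k, ∀ u ∈ A.Y0, u ∈ A.Full j k → A.T.Reachable u (A.a (S.b k) u) := by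
  induction j with
  | zero => exact A.reach_Gd
  | succ j ih =>
    intro k u hu h
    have h1 : ∀ i, A.T.Reachable (A.a (S.γ (k + 1) i) u)
        (A.a (S.b (k + 1)) (A.a (S.γ (k + 1) i) u)) :=
      fun i => ih _ _ (A.Y0_inv _ hu) (Set.mem_iInter.1 h i)
    rw [S.rel' k, A.a_mul]
    exact (A.reach_top hu (k + 1) fun i _ => h1 i).trans (h1 3)

lemma reach_all (g : G) : ∀ u ∈ A.Y0, A.T.Reachable u (A.a g u) := by
  have hg : g ∈ Subgroup.closure ({S.x, S.y} ∪ Set.range S.b) := by rw [S.gen]; trivial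
  induction hg using Subgroup.closure_induction with
  | mem g hg =>
    intro u hu
    rcases hg with (rfl | rfl) | ⟨m, rfl⟩
    · exact A.reach_x hu
    · exact A.reach_y hu
    · obtain ⟨j, hj⟩ := (A.Y0_Y1 hu).2 m
      exact A.reach_Full j m u hu hj
  | one => intro u _; rw [A.a_one]
  | mul g h _ _ hg hh =>
    intro u hu
    rw [A.a_mul]
    exact (hh u hu).trans (hg _ (A.Y0_inv _ hu))
  | inv g _ hg =>
    intro u hu
    have := hg _ (A.Y0_inv g⁻¹ hu)
    rw [A.a_inv'] at this
    exact this.symm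

lemma orbit_of_reach {u v : Y} (h : A.T.Reachable u v) : ∃ g, A.a g u = v := by
  obtain ⟨p⟩ := h
  induction p with
  | nil => exact ⟨1, A.a_one _⟩
  | cons h p ih =>
    obtain ⟨g, rfl⟩ := ih
    rcases h.2 with ⟨s, -, -, rfl⟩ | ⟨s, -, -, rfl⟩
    · exact ⟨_, A.a_mul _ _ _⟩
    · exact ⟨g * (gen S s)⁻¹, by simp [A.a_mul]⟩

/-- A skew product permutation. -/
def skew (g : G) (f : Y → ZMod 2) : Equiv.Perm (Y × ZMod 2) where
  toFun p := (A.a g p.1, p.2 + f p.1)
  invFun p := (A.a g⁻¹ p.1, p.2 - f (A.a g⁻¹ p.1))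
  left_inv p := by simp
  right_inv p := by simp

/-- The skew product action of the free group of level `n`. -/
def Lam (n : ℕ) (f : Fin 3 → Y → ZMod 2) : F3 →* Equiv.Perm (Y × ZMod 2) :=
  FreeGroup.lift fun j => A.skew (S.lf n (.of j)) (f j)

/-- The cocycle. -/
def kap (n : ℕ) (f : Fin 3 → Y → ZMod 2) (v : F3) (y : Y) : ZMod 2 := (A.Lam n f v (y, 0)).2

lemma Lam_apply (n : ℕ) (f : Fin 3 → Y → ZMod 2) (v : F3) (y : Y) (ε : ZMod 2) :
    A.Lam n f v (y, ε) = (A.a (S.lf n v) y, ε + A.kap n f v y) := by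
  unfold kap
  induction v using FreeGroup.induction_on generalizing y ε with
  | C1 => simp [A.a_one]
  | of j => simp [Lam, skew]
  | inv_of j _ => simp [Lam, skew, Equiv.Perm.inv_def, sub_eq_add_neg]
  | mul v w hv hw =>
    simp only [map_mul, Equiv.Perm.mul_apply]
    rw [hw, hv, hw y 0, hv (A.a _ y) (0 + _), A.a_mul]
    simp [add_assoc]

lemma kap_of (n : ℕ) (f : Fin 3 → Y → ZMod 2) (j : Fin 3) (y : Y) :
    A.kap n f (.of j) y = f j y := by simp [kap, Lam, skew]

lemma kap_one (n : ℕ) (f : Fin 3 → Y → ZMod 2) (y : Y) : A.kap n f 1 y = 0 := by simp [kap]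

lemma kap_mul (n : ℕ) (f : Fin 3 → Y → ZMod 2) (v w : F3) (y : Y) :
    A.kap n f (v * w) y = A.kap n f w y + A.kap n f v (A.a (S.lf n w) y) := by
  rw [kap, map_mul, Equiv.Perm.mul_apply, Lam_apply, Lam_apply, zero_add]

lemma kap_inv (n : ℕ) (f : Fin 3 → Y → ZMod 2) (v : F3) (y : Y) :
    A.kap n f v⁻¹ (A.a (S.lf n v) y) = A.kap n f v y := by
  have := A.kap_mul n f v⁻¹ v y
  rw [inv_mul_cancel, kap_one] at this
  rw [eq_neg_of_add_eq_zero_right this.symm, ZMod.neg_eq_self_mod_two]

/-- The row sums. -/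
def Xo (n : ℕ) (f : Y → ZMod 2) : Y → ZMod 2 := fun y => ∑ i, f (A.a (S.γ n i) y)

lemma kap_sub (n : ℕ) (f : Y → ZMod 2) (v : F3) (y : Y) :
    A.kap (n + 1) ![0, 0, f] (Sys.sub v) y = A.kap n ![0, 0, A.Xo (n + 1) f] v y := by
  have : (A.Lam (n + 1) ![0, 0, f]).comp Sys.sub = A.Lam n ![0, 0, A.Xo (n + 1) f] := by
    refine FreeGroup.ext_hom _ _ fun j => Equiv.ext fun p => ?_
    obtain ⟨y, ε⟩ := p
    rw [MonoidHom.comp_apply, Lam_apply, Lam_apply, Sys.lf_sub]
    congr 2
    fin_cases j
    · simp [Sys.sub, kap_of]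
    · simp [Sys.sub, kap_of]
    · simp [Sys.sub, kap_of, kap_mul, Xo, Fin.sum_univ_four, Sys.γ, A.a_one, A.a_mul, add_assoc]
  rw [kap, kap, ← this]
  rfl

/-- The level of a generator. -/
def lev : Fin 2 ⊕ ℕ → ℕ := Sum.elim (fun _ => 0) id

/-- The word of a generator at level `n`. -/
def vw (n : ℕ) : Fin 2 ⊕ ℕ → F3 :=
  Sum.elim (fun i => .of i.castSucc) (fun k => Sys.sub^[n - k] (.of 2))

lemma lf_vw (n : ℕ) (s : Fin 2 ⊕ ℕ) (h : lev s ≤ n) : S.lf n (vw n s) = gen S s := by
  rcases s with i | k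
  · fin_cases i <;> simp [vw, gen]
  · obtain ⟨j, rfl⟩ := Nat.exists_eq_add_of_le (show k ≤ n from h)
    simp [vw, gen, S.lf_iter]

theorem acyclic : A.T.IsAcyclic := by
  classical
  intro u c hc
  have hex : ∀ e : Sym2 Y, ∃ q : (Fin 2 ⊕ ℕ) × Y, e ∈ A.T.edgeSet →
      q.2 ∈ A.Y0 ∧ q.2 ∈ A.E q.1 ∧ e = s(q.2, A.a (gen S q.1) q.2) := by
    intro e
    induction e using Sym2.ind with
    | _ p q =>
      by_cases h : A.T.Adj p q
      · rcases h.2 with ⟨s, h1, h2, rfl⟩ | ⟨s, h1, h2, rfl⟩
        · exact ⟨(s, p), fun _ => ⟨h1, h2, rfl⟩⟩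
        · exact ⟨(s, q), fun _ => ⟨h1, h2, Sym2.eq_swap⟩⟩
      · exact ⟨(.inl 0, u), fun h' => absurd h' h⟩
  choose q hq using hex
  let Sg : Finset (Sym2 Y) := c.edges.toFinset
  have hSg : ∀ e ∈ Sg, e ∈ A.T.edgeSet := fun e he =>
    c.edges_subset_edgeSet (List.mem_toFinset.1 he)
  have qinj : ∀ e ∈ Sg, ∀ e' ∈ Sg, q e = q e' → e = e' := by
    intro e he e' he' h
    rw [(hq e (hSg e he)).2.2, (hq e' (hSg e' he')).2.2, h]
  let N := Sg.sup fun e => lev (q e).1
  have hN : ∀ e ∈ Sg, lev (q e).1 ≤ N := fun e he =>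
    Finset.le_sup (f := fun e => lev (q e).1) he
  have walk : ∀ (f : Fin 3 → Y → ZMod 2) (v w : Y) (p : A.T.Walk v w), (∀ e ∈ p.edges, e ∈ Sg) →
      ∃ g : F3, A.a (S.lf N g) v = w ∧
        A.kap N f g v = (p.edges.map fun e => A.kap N f (vw N (q e).1) (q e).2).sum := by
    intro f v w p
    induction p with
    | nil => exact fun _ => ⟨1, by simp [A.a_one], by simp [kap_one]⟩
    | @cons v v' w h p ih =>
      intro hp
      obtain ⟨g, hg, hk⟩ := ih (fun e he => hp e (by simp [he]))
      have he : s(v, v') ∈ Sg := hp _ (by simp)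
      have h3 := (hq _ (hSg _ he)).2.2
      rw [← lf_vw N _ (hN _ he)] at h3
      simp only [SimpleGraph.Walk.edges_cons, List.map_cons, List.sum_cons, ← hk]
      generalize q s(v, v') = r at h3
      rcases Sym2.eq_iff.1 h3 with ⟨rfl, rfl⟩ | ⟨rfl, rfl⟩
      · exact ⟨g * vw N r.1, by rw [map_mul, A.a_mul, hg], by rw [kap_mul]⟩
      · exact ⟨g * (vw N r.1)⁻¹, by rw [map_mul, A.a_mul, map_inv, A.a_inv, hg], by
          rw [kap_mul, kap_inv, map_inv, A.a_inv]⟩
  obtain ⟨e₀, he₀⟩ : Sg.Nonempty := by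
    rw [List.toFinset_nonempty_iff]
    intro h
    exact hc.not_nil (SimpleGraph.Walk.edges_eq_nil.1 h)
  have hu : u ∈ A.Y0 := by
    cases c with
    | nil => exact absurd rfl hc.ne_nil
    | cons h p =>
      rcases h.2 with ⟨s, h1, -, -⟩ | ⟨s, h1, -, rfl⟩
      · exact h1
      · exact A.Y0_inv _ h1
  have zero : ∀ f : Fin 3 → Y → ZMod 2, ∑ e ∈ Sg, A.kap N f (vw N (q e).1) (q e).2 = 0 := by
    intro f
    obtain ⟨g, hg, hk⟩ := walk f u u c (fun e he => List.mem_toFinset.2 he)
    have : g = 1 := S.lf_inj N (by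
      rw [map_one]
      by_contra h
      exact (A.Y0_Y1 hu).1 _ h hg)
    rw [List.sum_toFinset _ hc.isTrail.edges_nodup, ← hk, this, kap_one]
  let L : ℕ → Finset (Sym2 Y) := fun k => Sg.filter fun e => (q e).1 = .inr k
  have single_eval : ∀ k, ∀ e ∈ L k, (∑ e' ∈ L k, Finsupp.single (q e').2 (1 : ZMod 2)) (q e).2
      = 1 := by
    intro k e he
    rw [Finsupp.finsetSum_apply, Finset.sum_eq_single_of_mem e he, Finsupp.single_eq_same]
    intro e' he' hne
    refine Finsupp.single_eq_of_ne fun h => hne ?_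
    rw [Finset.mem_filter] at he he'
    exact qinj _ he'.1 _ he.1 (Prod.ext (he'.2.trans he.2.symm) h.symm)
  have single_supp : ∀ k y, (∑ e' ∈ L k, Finsupp.single (q e').2 (1 : ZMod 2)) y ≠ 0 →
      y ∈ A.E (.inr k) := by
    intro k y hy
    rw [Finsupp.finsetSum_apply] at hy
    obtain ⟨e, he, h⟩ := Finset.exists_ne_zero_of_sum_ne_zero hy
    rw [Finset.mem_filter] at he
    have := (hq e (hSg e he.1)).2.1
    rw [he.2] at this
    rwa [(Finsupp.single_apply_ne_zero.1 h).1]
  have inv : ∀ n, ∃ m : Y →₀ ZMod 2, (∀ y, m y ≠ 0 → y ∈ A.Gd n) ∧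
      (∀ f, ∑ k ∈ Finset.range (n + 1), ∑ e ∈ L k, A.kap n ![0, 0, f] (vw n (.inr k)) (q e).2 =
        Finsupp.linearCombination (ZMod 2) f m) ∧ (m = 0 → ∀ k ≤ n, L k = ∅) := by
    intro n
    induction n with
    | zero =>
      refine ⟨∑ e' ∈ L 0, Finsupp.single (q e').2 1, single_supp 0, fun f => ?_, fun h k hk => ?_⟩
      · simp [vw, kap_of]
      · obtain rfl : k = 0 := by omega
        refine Finset.eq_empty_of_forall_notMem fun e he => ?_
        have := single_eval 0 e he
        rw [h] at this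
        exact zero_ne_one this
    | succ n ih =>
      obtain ⟨m, h1, h2, h3⟩ := ih
      have hmap : ∀ g v, Finsupp.mapDomain (A.a g) m v = m (A.a g⁻¹ v) := by
        intro g v
        conv_lhs => rw [← A.a_inv' g v]
        exact Finsupp.mapDomain_apply (A.a_inj g) _ _
      refine ⟨∑ i, Finsupp.mapDomain (A.a (S.γ (n + 1) i)) m +
        ∑ e' ∈ L (n + 1), Finsupp.single (q e').2 1, fun y hy => ?_, fun f => ?_, fun h => ?_⟩
      · rw [Finsupp.add_apply] at hy
        by_cases h0 : (∑ e' ∈ L (n + 1), Finsupp.single (q e').2 (1 : ZMod 2)) y = 0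
        · rw [h0, add_zero, Finsupp.finsetSum_apply] at hy
          obtain ⟨i, -, hi⟩ := Finset.exists_ne_zero_of_sum_ne_zero hy
          rw [hmap] at hi
          simpa using (A.mem_Gd (h1 _ hi)).2 i
        · exact (single_supp _ _ h0).1
      · rw [Finset.sum_range_succ, map_add, map_sum, map_sum]
        congr 1
        · have : ∑ i, Finsupp.linearCombination (ZMod 2) f
              (Finsupp.mapDomain (A.a (S.γ (n + 1) i)) m) =
              Finsupp.linearCombination (ZMod 2) (A.Xo (n + 1) f) m := by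
            simp only [Finsupp.linearCombination_mapDomain]
            simp only [Finsupp.linearCombination_apply, Finsupp.sum, Xo, Finset.smul_sum,
              Function.comp_apply]
            exact Finset.sum_comm
          rw [this, ← h2]
          refine Finset.sum_congr rfl fun k hk => Finset.sum_congr rfl fun e _ => ?_
          have : n + 1 - k = (n - k) + 1 := by have := Finset.mem_range.1 hk; omega
          simp only [vw, Sum.elim_inr, this, Function.iterate_succ_apply', kap_sub]
        · simp [vw, kap_of]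
      · have hm : m = 0 := by
          by_contra hm
          obtain ⟨y, hy, hmax⟩ := Finset.exists_max_image m.support (A.ht n)
            (Finsupp.support_nonempty_iff.2 hm)
          have hy' := Finsupp.mem_support_iff.1 hy
          have := DFunLike.congr_fun h (A.a (S.γ (n + 1) 3) y)
          have z1 : (∑ e' ∈ L (n + 1), Finsupp.single (q e').2 (1 : ZMod 2))
              (A.a (S.γ (n + 1) 3) y) = 0 := by
            by_contra h0
            exact (single_supp _ _ h0).2 (by simpa using h1 y hy')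
          rw [Finsupp.add_apply, z1, add_zero, Finsupp.finsetSum_apply,
            Finset.sum_eq_single_of_mem 3 (Finset.mem_univ _), hmap, A.a_inv] at this
          · exact hy' this
          · intro i _ hi
            rw [hmap]
            by_contra h0
            have a1 := A.hht n _ (A.mem_Gd (h1 _ h0)).1 i
            have a2 := A.hht n _ (A.mem_Gd (h1 _ hy')).1 3
            have a3 := hmax _ (Finsupp.mem_support_iff.2 h0)
            have a4 : (i : ℕ) ≠ 3 := fun h => hi (Fin.ext h)
            have a5 := i.2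
            rw [A.a_inv'] at a1
            simp only [Fin.isValue, Fin.coe_ofNat_eq_mod] at a2
            omega
        intro k hk
        rcases Nat.lt_succ_iff_lt_or_eq.1 (Nat.lt_succ_of_le hk) with hk | rfl
        · exact h3 hm k (by omega)
        · refine Finset.eq_empty_of_forall_notMem fun e he => ?_
          have := single_eval _ e he
          rw [hm] at h
          simp only [Finsupp.mapDomain_zero, Finset.sum_const_zero, zero_add] at h
          rw [h] at this
          exact zero_ne_one this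
  obtain ⟨m, -, h2, h3⟩ := inv N
  have hm : m = 0 := by
    ext y
    have := h2 (Pi.single y 1)
    rw [Finsupp.linearCombination_single_index] at this
    have z := zero ![0, 0, Pi.single y 1]
    rw [← Finset.sum_filter_add_sum_filter_not Sg (fun e => (q e).1.isRight),
      Finset.sum_eq_zero (s := Sg.filter fun e => ¬ (q e).1.isRight), add_zero,
      ← Finset.sum_fiberwise_of_maps_to (t := Finset.range (N + 1)) (g := fun e => lev (q e).1)
        (fun e he => Finset.mem_range.2 (Nat.lt_succ_of_le (hN e (Finset.mem_filter.1 he).1)))]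
      at z
    · have e1 : ∀ k, (Sg.filter fun e => (q e).1.isRight).filter (fun e => lev (q e).1 = k) =
          L k := by
        intro k
        ext e
        simp only [L, Finset.mem_filter]
        rcases (q e).1 with i | j <;> simp [lev]
      simp only [e1] at z
      rw [Finset.sum_congr rfl fun k _ => Finset.sum_congr rfl fun e he => by
        rw [(Finset.mem_filter.1 he).2], this] at z
      simpa using z
    · intro e he
      have := (Finset.mem_filter.1 he).2
      rcases hs : (q e).1 with i | k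
      · fin_cases i <;> simp [vw, kap_of]
      · simp [hs] at this
  have hl : ∀ e ∈ Sg, ∃ i, (q e).1 = .inl i := by
    intro e he
    rcases hs : (q e).1 with i | k
    · exact ⟨i, rfl⟩
    · have : e ∈ L k := Finset.mem_filter.2 ⟨he, hs⟩
      rw [h3 hm k (by simpa [hs, lev] using hN e he)] at this
      simp at this
  obtain ⟨i₀, hi₀⟩ := hl e₀ he₀
  have := zero fun j y => if j = i₀.castSucc ∧ y = (q e₀).2 then 1 else 0
  rw [Finset.sum_eq_single_of_mem e₀ he₀] at this
  · simp [hi₀, vw, kap_of] at this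
  · intro e he hne
    obtain ⟨i, hi⟩ := hl e he
    simp only [hi, vw, Sum.elim_inl, kap_of, Fin.castSucc_inj, ite_eq_right_iff, and_imp]
    intro h1 h2
    exact absurd (qinj _ he _ he₀ (Prod.ext (by rw [hi, hi₀, h1]) h2)) hne

end Tow

end Pool.Agent.MP_494aff_an

end MrgPart2

-- marker of a merged file
example : 731051 + 295493 = 731051 + 295493 := rfl
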