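import Mathlib.SetTheory.Cardinal.Free
import Mathlib.MeasureTheory.Measure.RegularityCompacts
import Mathlib.GroupTheory.CoprodI
import Mathlib.Order.CompletePartialOrder
import Mathlib.Topology.Instances.ZMod
import Mathlib.Topology.UniformSpace.Uniformizable
import Pool.Agent.MP_494aff_an.Comb

-- ======== part 0: formerly Pool.Agent.MP_494aff_an.Ultra
section MrgPart0

/-! The group as a subgroup of the ultrapower of the free group of rank two. -/

namespace Pool.Agent.MP_494aff_an

open Filter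

abbrev F2 := FreeGroup (Fin 2)

/-- The ping-pong table. -/
abbrev Om := ℤ × Bool × ℕ

/-- The head of a point of the table. -/
def Hd (e : ℤ) (s : Bool) (ω : Om) : Prop := ω.1 = e ∧ ω.2.1 = s

/-- The first generator raises the first coordinate. -/
def tx : Equiv.Perm Om := Equiv.prodCongr (Equiv.addRight 1) (Equiv.refl _)

lemma exists_ty : ∃ ty : Equiv.Perm Om, ∀ ω, ¬ Hd 0 false ω → Hd 0 true (ty ω) := by
  classical
  have i1 : Infinite {ω : Om // ¬ Hd 0 false ω} :=
    Infinite.of_injective (fun n : ℕ => ⟨(0, true, n), by simp [Hd]⟩)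
      (fun a b h => by simpa using h)
  have i2 : Infinite {ω : Om // Hd 0 true ω} :=
    Infinite.of_injective (fun n : ℕ => ⟨(0, true, n), by simp [Hd]⟩)
      (fun a b h => by simpa using h)
  have i3 : Infinite {ω : Om // ¬ ¬ Hd 0 false ω} :=
    Infinite.of_injective (fun n : ℕ => ⟨(0, false, n), by simp [Hd]⟩)
      (fun a b h => by simpa using h)
  have i4 : Infinite {ω : Om // ¬ Hd 0 true ω} :=
    Infinite.of_injective (fun n : ℕ => ⟨(0, false, n), by simp [Hd]⟩)
      (fun a b h => by simpa using h)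
  obtain ⟨e⟩ : Nonempty ({ω : Om // ¬ Hd 0 false ω} ≃ {ω : Om // Hd 0 true ω}) := inferInstance
  obtain ⟨f⟩ : Nonempty ({ω : Om // ¬ ¬ Hd 0 false ω} ≃ {ω : Om // ¬ Hd 0 true ω}) :=
    inferInstance
  refine ⟨Equiv.subtypeCongr e f, fun ω h => ?_⟩
  have : Equiv.subtypeCongr e f ω = e ⟨ω, h⟩ := by
    simp only [Equiv.subtypeCongr, Equiv.trans_apply]
    rw [Equiv.sumCompl_symm_apply_of_pos (p := fun ω => ¬ Hd 0 false ω) h]
    rfl
  rw [this]
  exact (e ⟨ω, h⟩).2

/-- The second generator. -/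
noncomputable def ty : Equiv.Perm Om := exists_ty.choose

lemma ty_spec (ω : Om) (h : ¬ Hd 0 false ω) : Hd 0 true (ty ω) := exists_ty.choose_spec ω h

/-- The action of the free group on the table. -/
noncomputable instance instAct : MulAction F2 Om :=
  MulAction.compHom Om (FreeGroup.lift ![tx, ty] : F2 →* Equiv.Perm Om)

lemma x_smul (ω : Om) : (FreeGroup.of 0 : F2) • ω = (ω.1 + 1, ω.2) := by
  change (FreeGroup.lift ![tx, ty] (FreeGroup.of (0 : Fin 2))) ω = _
  simp [tx, Prod.map]

lemma y_smul (ω : Om) : (FreeGroup.of 1 : F2) • ω = ty ω := by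
  change (FreeGroup.lift ![tx, ty] (FreeGroup.of (1 : Fin 2))) ω = _
  simp

lemma xpow_smul (k : ℕ) (ω : Om) : (FreeGroup.of 0 : F2) ^ k • ω = (ω.1 + k, ω.2) := by
  induction k with
  | zero => simp
  | succ k ih => rw [pow_succ', mul_smul, ih, x_smul]; simp [add_assoc]

/-- The word map. -/
def wd (b : F2) : F2 := b * b * .of 0 * b * .of 1 * b

/-- The coordinates of the generators `b n`. -/
def bb (n k : ℕ) : F2 := wd^[k - n] (.of 0 ^ k * .of 1 * .of 0 ^ k)

lemma bb_spec (n k : ℕ) (ω : Om) (h : ¬ Hd (-k) false ω) : Hd k true (bb n k • ω) := by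
  unfold bb
  generalize k - n = j
  induction j generalizing ω with
  | zero =>
    simp only [Function.iterate_zero, id, mul_smul, xpow_smul, y_smul]
    have := ty_spec (ω.1 + k, ω.2) (by
      intro h'
      apply h
      simp only [Hd] at h' ⊢
      exact ⟨by omega, h'.2⟩)
    simp only [Hd] at this ⊢
    exact ⟨by omega, this.2⟩
  | succ j ih =>
    rw [Function.iterate_succ_apply']
    generalize wd^[j] (.of 0 ^ k * .of 1 * .of 0 ^ k) = b at ih
    simp only [wd, mul_smul]
    have t : ∀ (e : ℤ) (e' : ℤ) (ω : Om), Hd e true ω → ¬ Hd e' false ω := by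
      intro e e' ω h h'
      simp [Hd] at h h'
      simp [h.2] at h'
    have h1 := ih ω h
    have h2 : Hd 0 true ((FreeGroup.of 1 : F2) • b • ω) := by
      rw [y_smul]; exact ty_spec _ (t _ _ _ h1)
    have h3 := ih _ (t _ _ _ h2)
    have h4 : Hd (k + 1) true ((FreeGroup.of 0 : F2) • b • (FreeGroup.of 1 : F2) • b • ω) := by
      rw [x_smul]
      simp only [Hd] at h3 ⊢
      exact ⟨by omega, h3.2⟩
    exact ih _ (t _ _ _ (ih _ (t _ _ _ h4)))

variable (U : Ultrafilter ℕ)

/-- The ultrapower. -/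
abbrev UP := Germ (U : Filter ℕ) F2

/-- The generators in the ultrapower. -/
def BB (n : ℕ) : UP U := ((fun k => bb n k : ℕ → F2) : UP U)

/-- The diagonal embedding. -/
def dg : F2 →* UP U := (Germ.coeMulHom (U : Filter ℕ)).comp (Pi.constMonoidHom ℕ F2)

lemma dg_apply (g : F2) : dg U g = ((fun _ => g : ℕ → F2) : UP U) := rfl

lemma dg_inj : Function.Injective (dg U) := by
  intro a b h
  rw [dg_apply, dg_apply, Germ.coe_eq] at h
  exact (h.exists).choose_spec

/-- Sets in the ultrapower of the table. -/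
def Sp (e : ℕ → ℤ) (s : Bool) : Set (Germ (U : Filter ℕ) Om) :=
  {ω | ∃ f : ℕ → Om, (f : Germ (U : Filter ℕ) Om) = ω ∧ ∀ᶠ k in (U : Filter ℕ), Hd (e k) s (f k)}

lemma mem_Sp (e : ℕ → ℤ) (s : Bool) (f : ℕ → Om) :
    (f : Germ (U : Filter ℕ) Om) ∈ Sp U e s ↔ ∀ᶠ k in (U : Filter ℕ), Hd (e k) s (f k) := by
  constructor
  · rintro ⟨g, hg, h⟩
    rw [Germ.coe_eq] at hg
    filter_upwards [hg, h] with k h1 h2 using h1 ▸ h2
  · exact fun h => ⟨f, rfl, h⟩

variable {U}

lemma free_up (hU : (U : Filter ℕ) ≤ cofinite) (n : ℕ) :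
    Function.Injective (FreeGroup.lift ![dg U (.of 0), dg U (.of 1), BB U n]) := by
  have big : ∀ j : ℕ, ∀ᶠ k in (U : Filter ℕ), j < k := fun j =>
    hU (by rw [Nat.cofinite_eq_atTop]; exact eventually_gt_atTop j)
  let sp : Set (Germ (U : Filter ℕ) Om) :=
    Sp U (fun _ => 0) true ∪ Sp U (fun _ => 0) false ∪ Sp U (fun k => k) true ∪
      Sp U (fun k => -k) false
  let Yx : Set (Germ (U : Filter ℕ) Om) := {ω | ∃ j : ℕ, dg U (.of 0) ^ (j + 1) • ω ∈ sp}
  have hxs : ∀ (j : ℕ) (f : ℕ → Om), dg U (.of 0) ^ j • (f : Germ (U : Filter ℕ) Om) =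
      ((fun k => ((f k).1 + j, (f k).2) : ℕ → Om) : Germ (U : Filter ℕ) Om) := by
    intro j f
    rw [← map_pow, dg_apply, ← Germ.coe_smul']
    congr 1
    ext1 k
    exact xpow_smul j (f k)
  have hsp : ∀ f : ℕ → Om, (f : Germ (U : Filter ℕ) Om) ∈ sp →
      ∀ᶠ k in (U : Filter ℕ), (f k).1 = 0 ∨ (f k).1 = k ∨ (f k).1 = -k := by
    intro f hf
    simp only [sp, Set.mem_union, mem_Sp] at hf
    rcases hf with ((h | h) | h) | h <;> filter_upwards [h] with k hk <;> simp [hk.1]
  have hYsp : Disjoint Yx sp := by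
    rw [Set.disjoint_left]
    rintro ω ⟨j, hj⟩ h
    induction ω using Germ.inductionOn with
    | _ f =>
      rw [hxs] at hj
      obtain ⟨k, h1, h2, h3⟩ := ((hsp _ hj).and ((hsp _ h).and (big (j + 1)))).exists
      simp only at h1
      omega
  have hdis : ∀ (e e' : ℕ → ℤ) (s s' : Bool), (s ≠ s' ∨ ∀ k, 0 < k → e k ≠ e' k) →
      Disjoint (Sp U e s) (Sp U e' s') := by
    intro e e' s s' h
    rw [Set.disjoint_left]
    intro ω h1 h2
    induction ω using Germ.inductionOn with
    | _ f =>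
      rw [mem_Sp] at h1 h2
      obtain ⟨k, h1, h2, h3⟩ := (h1.and (h2.and (big 0))).exists
      rcases h with h | h
      · exact h (h1.2.symm.trans h2.2)
      · exact h k h3 (h1.1.symm.trans h2.1)
  have s1 : Sp U (fun _ => 0) true ⊆ sp := fun ω h => Or.inl (Or.inl (Or.inl h))
  have s2 : Sp U (fun _ => 0) false ⊆ sp := fun ω h => Or.inl (Or.inl (Or.inr h))
  have s3 : Sp U (fun k => k) true ⊆ sp := fun ω h => Or.inl (Or.inr h)
  have s4 : Sp U (fun k => -k) false ⊆ sp := fun ω h => Or.inr h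
  have c1 : ∀ A ⊆ sp, Disjoint (sp ∪ Yx)ᶜ A := fun A hA =>
    Set.disjoint_left.2 fun ω h h' => h (Or.inl (hA h'))
  have c2 : ∀ A ⊆ sp, Disjoint A Yx := fun A hA => (hYsp.mono_right hA).symm
  have step : ∀ (g : ℕ → F2) (e e' : ℕ → ℤ) (s s' : Bool),
      (∀ k ω, ¬ Hd (e k) s ω → Hd (e' k) s' (g k • ω)) →
      ∀ ω, ω ∉ Sp U e s → (g : UP U) • ω ∈ Sp U e' s' := by
    intro g e e' s s' h ω hω
    induction ω using Germ.inductionOn with
    | _ f =>
      rw [← Germ.coe_smul', mem_Sp]
      rw [mem_Sp, ← Ultrafilter.eventually_not] at hω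
      filter_upwards [hω] with k hk using h k _ hk
  have st1 := step (fun _ => .of 1) (fun _ => 0) (fun _ => 0) false true
    (fun k ω h => by rw [y_smul]; exact ty_spec _ h)
  have st2 := step (fun k => bb n k) (fun k => -k) (fun k => k) false true
    (fun k ω h => bb_spec n k ω h)
  refine FreeGroup.injective_lift_of_ping_pong _
    ![(sp ∪ Yx)ᶜ, Sp U (fun _ => 0) true, Sp U (fun k => k) true]
    ![Yx, Sp U (fun _ => 0) false, Sp U (fun k => -k) false] ?_ ?_ ?_ ?_ ?_ ?_
  · intro i
    fin_cases i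
    · refine ⟨((fun k => (k + 1, true, 0) : ℕ → Om) : Germ (U : Filter ℕ) Om), ?_⟩
      rintro (h | ⟨j, h⟩)
      · obtain ⟨k, h1⟩ := (hsp _ h).exists
        simp only at h1
        omega
      · rw [hxs] at h
        obtain ⟨k, h1⟩ := (hsp _ h).exists
        simp only at h1
        omega
    · exact ⟨((fun k => (0, true, 0) : ℕ → Om) : Germ (U : Filter ℕ) Om), by
        simp [mem_Sp, Hd]⟩
    · exact ⟨((fun k => (k, true, 0) : ℕ → Om) : Germ (U : Filter ℕ) Om), by
        simp [mem_Sp, Hd]⟩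
  · intro i j hij
    fin_cases i <;> fin_cases j <;> simp only [Function.onFun] <;> try exact absurd rfl hij
    · exact c1 _ s1
    · exact c1 _ s3
    · exact (c1 _ s1).symm
    · exact hdis _ _ _ _ (Or.inr fun k hk => by omega)
    · exact (c1 _ s3).symm
    · exact hdis _ _ _ _ (Or.inr fun k hk => by omega)
  · intro i j hij
    fin_cases i <;> fin_cases j <;> simp only [Function.onFun] <;> try exact absurd rfl hij
    · exact (c2 _ s2).symm
    · exact (c2 _ s4).symm
    · exact c2 _ s2
    · exact hdis _ _ _ _ (Or.inr fun k hk => by omega)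
    · exact c2 _ s4
    · exact hdis _ _ _ _ (Or.inr fun k hk => by omega)
  · intro i j
    fin_cases i <;> fin_cases j
    · exact Set.disjoint_left.2 fun ω h h' => h (Or.inr h')
    · exact c1 _ s2
    · exact c1 _ s4
    · exact c2 _ s1
    · exact hdis _ _ _ _ (Or.inl (by simp))
    · exact hdis _ _ _ _ (Or.inl (by simp))
    · exact c2 _ s3
    · exact hdis _ _ _ _ (Or.inl (by simp))
    · exact hdis _ _ _ _ (Or.inl (by simp))
  · intro i
    rintro _ ⟨ω, hω, rfl⟩
    fin_cases i
    · rintro (h | ⟨j, h⟩)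
      · exact hω ⟨0, by simpa using h⟩
      · refine hω ⟨j + 1, ?_⟩
        rw [pow_succ, mul_smul]
        exact h
    · exact st1 ω hω
    · exact st2 ω hω
  · intro i
    rintro _ ⟨ω, hω, rfl⟩
    fin_cases i
    · have hω' : ω ∈ sp ∪ Yx := not_not.1 hω
      rcases hω' with h | ⟨j, h⟩
      · exact ⟨0, by simpa using h⟩
      · refine ⟨j + 1, ?_⟩
        rw [pow_succ, mul_smul]
        simpa using h
    · by_contra h
      have := st1 _ h
      rw [← dg_apply] at this
      exact hω (by simpa using this)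
    · by_contra h
      have : BB U n • _ ∈ _ := st2 _ h
      exact hω (by simpa using this)

lemma BB_rel (hU : (U : Filter ℕ) ≤ cofinite) (n : ℕ) :
    BB U n = BB U (n + 1) * BB U (n + 1) * dg U (.of 0) * BB U (n + 1) * dg U (.of 1) *
      BB U (n + 1) := by
  simp only [BB, dg_apply, ← Germ.coe_mul, Germ.coe_eq]
  have : ∀ᶠ k in (U : Filter ℕ), n < k :=
    hU (by rw [Nat.cofinite_eq_atTop]; exact eventually_gt_atTop n)
  filter_upwards [this] with k hk
  have : k - n = (k - (n + 1)) + 1 := by omega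
  simp only [bb, Pi.mul_apply, this, Function.iterate_succ_apply', wd]

/-- The generating family. -/
def gens (U : Ultrafilter ℕ) : Fin 2 ⊕ ℕ → UP U := Sum.elim (fun i => dg U (.of i)) (BB U)

/-- The group. -/
def GG (U : Ultrafilter ℕ) : Subgroup (UP U) := (FreeGroup.lift (gens U)).range

instance : Countable (GG U) := (Set.countable_range _).to_subtype

lemma gens_mem (s : Fin 2 ⊕ ℕ) : gens U s ∈ GG U := ⟨.of s, by simp⟩

lemma dg_mem (g : F2) : dg U g ∈ GG U := by
  induction g using FreeGroup.induction_on with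
  | C1 => simp
  | of i => exact gens_mem (Sum.inl i)
  | inv_of i h => simpa using h
  | mul a b ha hb => simpa using mul_mem ha hb

/-- The data of the group. -/
def sys (hU : (U : Filter ℕ) ≤ cofinite) : Sys (GG U) where
  x := ⟨_, gens_mem (Sum.inl 0)⟩
  y := ⟨_, gens_mem (Sum.inl 1)⟩
  b n := ⟨_, gens_mem (Sum.inr n)⟩
  rel n := Subtype.ext (BB_rel hU n)
  free n := by
    refine Function.Injective.of_comp (f := (GG U).subtype) ?_
    have h := free_up hU n
    convert h using 1
    rw [← MonoidHom.coe_comp]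
    congr 1
    ext i
    fin_cases i <;> simp [gens]
  gen := by
    rw [eq_top_iff]
    rintro g -
    obtain ⟨v, rfl⟩ := (FreeGroup.lift (gens U)).rangeRestrict_surjective g
    induction v using FreeGroup.induction_on with
    | C1 => rw [map_one]; exact one_mem _
    | of s =>
      apply Subgroup.subset_closure
      rcases s with i | n
      · left
        fin_cases i
        · left; exact Subtype.ext (by simp)
        · right; exact Subtype.ext (by simp)
      · right
        exact ⟨n, Subtype.ext (by simp)⟩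
    | inv_of s h => rw [map_inv]; exact inv_mem h
    | mul a b ha hb => rw [map_mul]; exact mul_mem ha hb

lemma existential : ∃ H : Subgroup (GG U), Nonempty (H ≃* FreeGroup (Fin 2)) ∧
    Existential U H := by
  let d : F2 →* GG U := (dg U).codRestrict _ dg_mem
  have hd : Function.Injective d := fun a b h => dg_inj U (congrArg Subtype.val h)
  let e : F2 ≃* d.range := MonoidHom.ofInjective hd
  let j : UP U →* Germ (U : Filter ℕ) d.range :=
    { toFun := Germ.map e
      map_one' := by
        change Germ.map e ((1 : ℕ → F2) : UP U) = ((1 : ℕ → d.range) : Germ _ _)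
        rw [Germ.map_coe, Germ.coe_eq]
        exact Eventually.of_forall fun k => by simp
      map_mul' := by
        intro a b
        induction a using Germ.inductionOn with
        | _ f =>
          induction b using Germ.inductionOn with
          | _ g =>
            rw [← Germ.coe_mul, Germ.map_coe, Germ.map_coe, Germ.map_coe, ← Germ.coe_mul,
              Germ.coe_eq]
            exact Eventually.of_forall fun k => by simp }
  have hj : Function.Injective j := by
    intro a b h
    induction a using Germ.inductionOn with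
    | _ f =>
      induction b using Germ.inductionOn with
      | _ g =>
        change Germ.map e (f : UP U) = Germ.map e (g : UP U) at h
        rw [Germ.map_coe, Germ.map_coe, Germ.coe_eq] at h
        rw [Germ.coe_eq]
        filter_upwards [h] with k hk using e.injective hk
  refine ⟨d.range, ⟨e.symm⟩, j.comp (GG U).subtype, hj.comp Subtype.val_injective, ?_⟩
  intro h
  obtain ⟨g, rfl⟩ := e.surjective h
  rfl

end Pool.Agent.MP_494aff_an

end MrgPart0

-- ======== part 1: formerly Pool.Agent.MP_494aff_an.Tree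
section MrgPart1

/-! The Bernoulli shift of the group is not treeable. -/

namespace Pool.Agent.MP_494aff_an

open MeasureTheory Function Filter Topology

variable {G : Type} [Group G]

lemma odd_sign {a b c d : ℝ} (ha : a = 1 ∨ a = -1) (hb : b = 1 ∨ b = -1) (hc : c = 1 ∨ c = -1)
    (hd : d = 1 ∨ d = -1) (h : ¬ ((a = -1 ↔ b = -1) ↔ (c = -1 ↔ d = -1))) :
    a * b * c * d = -1 := by
  have n : ¬ ((1 : ℝ) = -1) := by norm_num
  rcases ha with rfl | rfl <;> rcases hb with rfl | rfl <;> rcases hc with rfl | rfl <;>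
    rcases hd with rfl | rfl <;> simp [n] at h ⊢

theorem not_treeable [Countable G] (S : Sys G) : ¬ Treeable (shift (G := G)) (bm G) := by
  classical
  have : Infinite G := Infinite.of_injective _ S.b_inj
  rintro ⟨X₀, T, mX, hX, hinv, mT, hT, horb⟩
  let X₁ : Set (G → Bool) := X₀ ∩ ⋂ g : G, {x | g ≠ 1 → shift g x ≠ x}
  have mX1 : MeasurableSet X₁ := mX.inter (MeasurableSet.iInter fun g =>
    measurableSet_setOfPred.2 (measurable_const.imp (Measurable.not (measurableSet_setOfPred.1
      (measurableSet_eq_fun (shift_pres g).measurable measurable_id)))))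
  have hX1 : ∀ᵐ x ∂bm G, x ∈ X₁ := by
    have h1 : ∀ᵐ x ∂bm G, x ∈ X₀ := hX
    have h2 : ∀ᵐ x ∂bm G, ∀ g : G, g ≠ 1 → shift g x ≠ x := ae_all_iff.2 fun g => by
      by_cases hg : g = 1
      · simp [hg]
      · have : ∀ᵐ x ∂bm G, shift g x ≠ x := by
          rw [ae_iff]; simpa using shift_free g hg
        filter_upwards [this] with x hx _ using hx
    filter_upwards [h1, h2] with x h1 h2 using ⟨h1, Set.mem_iInter.2 h2⟩
  have hinj : ∀ x ∈ X₁, Injective fun h : G => shift h⁻¹ x := by
    intro x hx h h' e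
    by_contra hne
    refine Set.mem_iInter.1 hx.2 (h' * h⁻¹) (fun e' => hne (mul_inv_eq_one.1 e').symm) ?_
    simp only at e
    rw [shift_mul, e, ← shift_mul]
    simp
  have hinv1 : ∀ g, ∀ x ∈ X₁, shift g x ∈ X₁ := by
    intro g x hx
    refine ⟨hinv g x hx.1, Set.mem_iInter.2 fun h hh e => hh ?_⟩
    have := hinj x hx (a₁ := (h * g)⁻¹) (a₂ := g⁻¹) (by simpa [shift_mul] using e)
    simpa using this
  let Γ : (G → Bool) → SimpleGraph G := fun x => T.comap fun h => shift h⁻¹ x
  have Γac : ∀ x ∈ X₁, (Γ x).IsAcyclic := fun x hx => hT.of_comap ⟨_, hinj x hx⟩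
  have Γre : ∀ x ∈ X₁, ∀ u v, (Γ x).Reachable u v := by
    intro x hx
    have key : ∀ (a b : G → Bool) (p : T.Walk a b) (u v : G), a = shift u⁻¹ x → b = shift v⁻¹ x →
        (Γ x).Reachable u v := by
      intro a b p
      induction p with
      | nil =>
        intro u v hu hv
        rw [hinj x hx (hu.symm.trans hv)]
      | @cons a c b h p ih =>
        intro u v hu hv
        obtain ⟨g, hg⟩ := (horb a (hu ▸ hinv _ x hx.1) c).1 h.reachable
        have hc : c = shift (u * g⁻¹)⁻¹ x := by rw [← hg, hu, ← shift_mul]; simp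
        have : (Γ x).Adj u (u * g⁻¹) := by
          change T.Adj (shift u⁻¹ x) (shift (u * g⁻¹)⁻¹ x)
          rw [← hu, ← hc]; exact h
        exact this.reachable.trans (ih _ _ hc hv)
    intro u v
    obtain ⟨p⟩ := (horb (shift u⁻¹ x) (hinv _ x hx.1) (shift v⁻¹ x)).2
      ⟨v⁻¹ * u, by rw [← shift_mul]; simp⟩
    exact key _ _ p u v rfl rfl
  have Γm : ∀ a b, Measurable fun x => (Γ x).Adj a b := fun a b =>
    (measurableSet_setOfPred.1 mT).comp
      ((shift_pres a⁻¹).measurable.prodMk (shift_pres b⁻¹).measurable)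
  have Γsh : ∀ g x, Γ (shift g x) = (Γ x).comap (Equiv.mulLeft g⁻¹) := by
    intro g x
    ext a b
    simp [Γ, shift_mul]
  let φ : G → G → (G → Bool) → Finset (G × Option G) := fun u v x =>
    if h : x ∈ X₁ then (Js_finite (Γre x h u v)).toFinset else ∅
  have φc : ∀ u v, ∀ x ∈ X₁, (φ u v x : Set (G × Option G)) = Js (Γ x) u v := by
    intro u v x hx
    simp [φ, hx]
  have φm : ∀ u v D, MeasurableSet (φ u v ⁻¹' {D}) := by
    intro u v D
    have : φ u v ⁻¹' {D} =
        {x | (x ∈ X₁ ∧ ∀ i, i ∈ Js (Γ x) u v ↔ i ∈ D) ∨ (¬ x ∈ X₁ ∧ ∅ = D)} := by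
      ext x
      by_cases hx : x ∈ X₁
      · simp only [Set.mem_preimage, Set.mem_singleton_iff, Set.mem_ofPred_eq, hx, true_and,
          not_true, false_and, or_false, ← φc u v x hx, Finset.mem_coe]
        exact Finset.ext_iff
      · simp [φ, hx]
    rw [this]
    have m := measurableSet_setOfPred.1 mX1
    exact measurableSet_setOfPred.2 ((m.and (Measurable.forall fun i =>
      (Js_measurable Γ Γm u v i).iff measurable_const)).or (m.not.and measurable_const))
  have φl : ∀ u v x, ∀ i ∈ φ u v x, i.2 ≠ none := by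
    intro u v x i hi
    by_cases hx : x ∈ X₁
    · obtain ⟨k, hk, -⟩ : i ∈ Js (Γ x) u v := by rw [← φc u v x hx]; exact hi
      simp [hk]
    · simp [φ, hx] at hi
  let σ : G → G → (G × Option G → Bool) → ℝ := fun u v z => ∏ i ∈ φ u v (pr z), sg (z i)
  have σadd : ∀ u v w z, pr z ∈ X₁ → σ u w z = σ u v z * σ v w z := by
    intro u v w z hz
    have : φ u w (pr z) = symmDiff (φ u v (pr z)) (φ v w (pr z)) := by
      apply Finset.coe_injective
      rw [Finset.coe_symmDiff, φc _ _ _ hz, φc _ _ _ hz, φc _ _ _ hz, Js_add (Γre _ hz) u v w]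
    simp only [σ, this]
    exact prod_symmDiff _ _ _ (fun i => sg_sq _)
  have σsh : ∀ g u v z, pr z ∈ X₁ → σ u v (sh g z) = σ (g⁻¹ * u) (g⁻¹ * v) z := by
    intro g u v z hz
    refine Finset.prod_equiv (tr g⁻¹) (fun i => ?_) (fun i _ => rfl)
    rw [← Finset.mem_coe, ← Finset.mem_coe, pr_sh, φc _ _ _ (hinv1 g _ hz), φc _ _ _ hz, Γsh,
      Js_comap]
  let c : G → (G × Option G → Bool) → ℝ := fun g z => σ 1 g⁻¹ z
  have cmul : ∀ g h z, pr z ∈ X₁ → c (g * h) z = c h z * c g (sh h z) := by
    intro g h z hz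
    simp only [c]
    rw [σsh h _ _ z hz, mul_one, ← σadd _ _ _ z hz, mul_inv_rev]
  have csg : ∀ g z, c g z = 1 ∨ c g z = -1 := fun g z => prod_sg _ _
  obtain ⟨l, hl⟩ := exists_injective_nat (Option G)
  let Y : G → Set (G × Option G → Bool) := fun g => {z | c g z = -1}
  let β : G → ℝ → ℝ := fun g r => (pm (nu l r)).real (Y g)
  let D : G → (G → Bool) → ℕ := fun g x => ∑ i ∈ φ 1 g⁻¹ x, (l i.2 + 1)
  have mY : ∀ g, MeasurableSet (Y g) := fun g => (sign_prob l 0 _ (φm 1 g⁻¹) (φl 1 g⁻¹)).1
  have βeq : ∀ g r, β g r = (1 - ∫ x, cl r ^ D g x ∂bm G) / 2 :=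
    fun g r => (sign_prob l r _ (φm 1 g⁻¹) (φl 1 g⁻¹)).2
  have mD : ∀ g, Measurable (D g) := fun g => by
    let _ : MeasurableSpace (Finset (G × Option G)) := ⊤
    exact (measurable_from_top (f := fun D : Finset (G × Option G) =>
      ∑ i ∈ D, (l i.2 + 1))).comp (measurable_to_countable' (φm 1 g⁻¹))
  have mP : ∀ g r, AEStronglyMeasurable (fun x => cl r ^ D g x) (bm G) := fun g r =>
    ((measurable_from_top (f := fun n : ℕ => cl r ^ n)).comp (mD g)).aestronglyMeasurable
  have bP : ∀ r (n : ℕ), ‖cl r ^ n‖ ≤ 1 := fun r n => by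
    rw [Real.norm_of_nonneg (pow_nonneg (cl_nonneg r) _)]
    exact pow_le_one₀ (cl_nonneg r) (cl_le_one r)
  have βc : ∀ g, Continuous (β g) := by
    intro g
    rw [show β g = _ from funext (βeq g)]
    have : Continuous fun r => ∫ x, cl r ^ D g x ∂bm G :=
      continuous_of_dominated (mP g) (fun r => ae_of_all _ fun x => bP r _) (integrable_const _)
        (ae_of_all _ fun x => cl_cont.pow _)
    fun_prop
  have β1 : ∀ g, β g 1 = 0 := by
    intro g
    rw [βeq]
    simp [cl]
  obtain ⟨η, hη, hη1, hηe⟩ : ∃ η : ℝ, 0 < η ∧ η < 1 / 2 ∧ η ≤ Real.exp (-64) :=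
    ⟨min (1 / 4) (Real.exp (-64)), lt_min (by norm_num) (Real.exp_pos _),
      (min_le_left _ _).trans_lt (by norm_num), min_le_right _ _⟩
  have step : ∀ n r, β (S.b (n + 1)) r < η →
      3 / 2 * β (S.b (n + 1)) r ≤ β (S.b n) r + β S.x r + β S.y r := by
    intro n r h
    obtain ⟨par, hpar⟩ := S.exists_par (n + 1)
    refine (expansion (nu l r) (S.γ (n + 1)) par hpar _ (mY _) (h.trans_le hηe)).trans ?_
    set b := S.b (n + 1) with hb
    have hsub : oddSet (S.γ (n + 1)) (Y b) ≤ᵐ[pm (nu l r)]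
        (Y (S.b n) ∪ sh (b * (S.y * b)) ⁻¹' Y S.x ∪ sh b ⁻¹' Y S.y : Set _) := by
      filter_upwards [(pr_pres l r).quasiMeasurePreserving.ae hX1] with z hz ho
      have e := odd_sign (csg _ _) (csg _ _) (csg _ _) (csg _ _) ho
      simp only [Sys.γ, Matrix.cons_val, sh_one, ← hb] at e
      have e2 : c (S.b n) z = c b z * c S.y (sh b z) * c b (sh (S.y * b) z) *
          c S.x (sh (b * (S.y * b)) z) * c b (sh (S.x * b * (S.y * b)) z) *
          c b (sh (b * (S.x * b * (S.y * b))) z) := by
        rw [← cmul _ _ _ hz, ← cmul _ _ _ hz, ← cmul _ _ _ hz, ← mul_assoc S.x b, ← cmul _ _ _ hz,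
          ← cmul _ _ _ hz, S.rel n]
        simp only [mul_assoc, ← hb]
      change (c (S.b n) z = -1 ∨ c S.x (sh (b * (S.y * b)) z) = -1) ∨ c S.y (sh b z) = -1
      rcases csg S.x (sh (b * (S.y * b)) z) with h1 | h1
      · rcases csg S.y (sh b z) with h2 | h2
        · rw [h1, h2, mul_one, mul_one, e] at e2
          exact Or.inl (Or.inl e2)
        · exact Or.inr h2
      · exact Or.inl (Or.inr h1)
    have := (ENNReal.toReal_mono (measure_ne_top _ _) (measure_mono_ae hsub)).trans ((measureReal_union_le _ _).trans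
      (add_le_add (measureReal_union_le _ _) le_rfl))
    rwa [(sh_pres _ _).measureReal_preimage (mY _).nullMeasurableSet,
      (sh_pres _ _).measureReal_preimage (mY _).nullMeasurableSet] at this
  obtain ⟨r₀, hr0, hr1, hr⟩ : ∃ r₀ : ℝ, 0 ≤ r₀ ∧ r₀ < 1 ∧ ∀ r ∈ Set.Icc r₀ 1,
      β (S.b 0) r ≤ η / 2 ∧ β S.x r ≤ η / 16 ∧ β S.y r ≤ η / 16 := by
    have ev : ∀ g (ε : ℝ), 0 < ε → ∀ᶠ r in 𝓝 (1 : ℝ), β g r ≤ ε := fun g ε hε =>
      ((βc g).tendsto 1).eventually (eventually_le_nhds (by rw [β1]; exact hε))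
    obtain ⟨δ, hδ, H⟩ := Metric.eventually_nhds_iff.1 ((ev (S.b 0) _ (half_pos hη)).and
      ((ev S.x (η / 16) (by positivity)).and (ev S.y (η / 16) (by positivity))))
    refine ⟨max 0 (1 - δ / 2), le_max_left _ _, max_lt one_pos (by linarith), fun r hr => H ?_⟩
    have := (le_max_right _ _).trans hr.1
    rw [Real.dist_eq, abs_lt]
    constructor <;> linarith [hr.2]
  have ind : ∀ n, ∀ r ∈ Set.Icc r₀ 1, β (S.b n) r ≤ η / 2 := by
    intro n
    induction n with
    | zero => exact fun r h => (hr r h).1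
    | succ n ih =>
      intro r h
      by_contra hc
      have hm : min (β (S.b (n + 1)) r) (3 / 4 * η) ∈
          Set.Icc (β (S.b (n + 1)) 1) (β (S.b (n + 1)) r) := by
        rw [β1]
        exact ⟨le_min (by linarith) (by positivity), min_le_left _ _⟩
      obtain ⟨s, hs, hs'⟩ := intermediate_value_Icc' h.2 (βc (S.b (n + 1))).continuousOn hm
      have hs1 : s ∈ Set.Icc r₀ 1 := ⟨h.1.trans hs.1, hs.2⟩
      have a1 : β (S.b (n + 1)) s ≤ 3 / 4 * η := hs' ▸ min_le_right _ _
      have a2 : η / 2 < β (S.b (n + 1)) s := hs' ▸ lt_min (not_le.1 hc) (by linarith)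
      have := step n s (by linarith)
      have := ih s hs1
      have := hr s hs1
      linarith [this.2.1, this.2.2]
  obtain ⟨R, hR⟩ := exists_pow_lt_of_lt_one (show (0 : ℝ) < 1 / 2 by norm_num) hr1
  obtain ⟨_, ⟨n, rfl⟩, hn⟩ := (Set.infinite_range_of_injective
    (inv_injective.comp S.b_inj)).exists_notMem_finite (finite_short l hl R)
  have hcl : cl r₀ = r₀ := by simp [cl, hr0, hr1.le]
  have hle : ∫ x, cl r₀ ^ D (S.b n) x ∂bm G ≤ ∫ _, (1 / 2 : ℝ) ∂bm G := by
    refine integral_mono_ae (Integrable.of_bound (mP _ _) 1 (ae_of_all _ fun x => bP _ _))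
      (integrable_const _) ?_
    filter_upwards [hX1] with x hx
    have : R ≤ D (S.b n) x := by
      by_contra hc
      exact hn ⟨Γ x, φ 1 _ x, Γac x hx, Γre x hx _ _, (φc _ _ x hx).symm, (not_le.1 hc).le⟩
    rw [hcl]
    exact (pow_le_pow_of_le_one hr0 hr1.le this).trans hR.le
  have := ind n r₀ ⟨le_rfl, hr1.le⟩
  rw [βeq] at this
  simp only [integral_const, probReal_univ, smul_eq_mul, one_mul] at hle
  linarith

end Pool.Agent.MP_494aff_an

end MrgPart1

-- ======== part 2: formerly Pool.Agent.MP_494aff_an.Act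
section MrgPart2

/-! A free measure preserving action of the group that is treeable. -/

namespace Pool.Agent.MP_494aff_an

open MeasureTheory Filter Topology

variable {G : Type} [Group G] [Countable G] {S : Sys G}

theorem Tow.treeable {Y : Type} [MeasurableSpace Y] [StandardBorelSpace Y] (A : Tow S Y)
    (μ : Measure Y) [IsProbabilityMeasure μ] (hp : ∀ g, MeasurePreserving (A.a g) μ μ)
    (hf : ∀ g, g ≠ 1 → μ {y | A.a g y = y} = 0) (mD : ∀ k, MeasurableSet (A.D k))
    (hD : ∀ k, μ.real (A.D k) ≤ 3 * (1 / 9) ^ (k + 1)) : Treeable A.a μ := by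
  have mGood : ∀ j k, MeasurableSet (A.Good j k) := by
    intro j
    induction j with
    | zero => exact fun k => MeasurableSet.univ
    | succ j ih =>
      exact fun k => (mD k).compl.inter (MeasurableSet.iInter fun i => (hp _).measurable (ih _))
  have mGd : ∀ k, MeasurableSet (A.Gd k) := fun k => MeasurableSet.iInter fun j => mGood j k
  have mFull : ∀ j k, MeasurableSet (A.Full j k) := by
    intro j
    induction j with
    | zero => exact mGd
    | succ j ih => exact fun k => MeasurableSet.iInter fun i => (hp _).measurable (ih _)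
  have four : ∀ (n : ℕ) (B : Set Y), MeasurableSet B →
      μ.real (⋂ i, A.a (S.γ n i) ⁻¹' B)ᶜ ≤ 4 * μ.real Bᶜ := by
    intro n B hB
    rw [Set.compl_iInter]
    refine (measureReal_iUnion_fintype_le _).trans ?_
    simp only [← Set.preimage_compl, (hp _).measureReal_preimage hB.compl.nullMeasurableSet]
    simp
  have hGood : ∀ j k, μ.real (A.Good j k)ᶜ ≤ (1 / 9) ^ k := by
    intro j
    induction j with
    | zero => intro k; simp [Tow.Good]
    | succ j ih =>
      intro k
      rw [Tow.Good, Set.compl_inter, compl_compl]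
      refine (measureReal_union_le _ _).trans ?_
      have h1 := four (k + 1) _ (mGood j (k + 1))
      have h2 := ih (k + 1)
      have h3 := hD k
      have h4 : (0 : ℝ) ≤ (1 / 9) ^ k := by positivity
      rw [pow_succ] at h2 h3
      linarith
  have anti : ∀ j k, A.Good (j + 1) k ⊆ A.Good j k := by
    intro j
    induction j with
    | zero => exact fun k => Set.subset_univ _
    | succ j ih =>
      exact fun k => Set.inter_subset_inter_right _
        (Set.iInter_mono fun i => Set.preimage_mono (ih _))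
  have hGd : ∀ k, μ.real (A.Gd k)ᶜ ≤ (1 / 9) ^ k := by
    intro k
    have hm : Monotone fun j => (A.Good j k)ᶜ :=
      monotone_nat_of_le_succ fun j => Set.compl_subset_compl.2 (anti j k)
    rw [Tow.Gd, Set.compl_iInter]
    refine ENNReal.toReal_le_of_le_ofReal (by positivity) ?_
    rw [hm.measure_iUnion]
    refine iSup_le fun j => ?_
    rw [← ofReal_measureReal (measure_ne_top _ _)]
    exact ENNReal.ofReal_le_ofReal (hGood j k)
  have hFull : ∀ j k, μ.real (A.Full j k)ᶜ ≤ (4 / 9) ^ j * (1 / 9) ^ k := by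
    intro j
    induction j with
    | zero => intro k; simpa [Tow.Full] using hGd k
    | succ j ih =>
      intro k
      refine (four (k + 1) _ (mFull j (k + 1))).trans ?_
      have := ih (k + 1)
      rw [pow_succ] at this ⊢
      linarith
  have mY1 : MeasurableSet A.Y1 := measurableSet_setOfPred.2 ((Measurable.forall fun h =>
    measurable_const.imp (Measurable.not (measurableSet_setOfPred.1
      (measurableSet_eq_fun (hp h).measurable measurable_id)))).and
    (Measurable.forall fun k => Measurable.exists fun j => measurableSet_setOfPred.1 (mFull j k)))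
  have hY1 : ∀ᵐ y ∂μ, y ∈ A.Y1 := by
    refine Eventually.and (ae_all_iff.2 fun g => ?_) (ae_all_iff.2 fun k => ?_)
    · by_cases hg : g = 1
      · simp [hg]
      · have : ∀ᵐ y ∂μ, A.a g y ≠ y := by
          rw [ae_iff]; simpa using hf g hg
        filter_upwards [this] with x hx _ using hx
    · rw [ae_iff, ← measureReal_eq_zero_iff (measure_ne_top _ _)]
      refine le_antisymm (ge_of_tendsto' (f := fun j : ℕ => (4 / 9 : ℝ) ^ j)
        (tendsto_pow_atTop_nhds_zero_of_lt_one (by norm_num) (by norm_num)) fun j => ?_)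
        measureReal_nonneg
      have hsub : {y | ¬ ∃ j, y ∈ A.Full j k} ⊆ (A.Full j k)ᶜ := fun y hy h => hy ⟨j, h⟩
      refine (measureReal_mono hsub).trans ((hFull j k).trans ?_)
      exact mul_le_of_le_one_right (by positivity) (pow_le_one₀ (by norm_num) (by norm_num))
  have mY0 : MeasurableSet A.Y0 := MeasurableSet.iInter fun g => (hp g).measurable mY1
  have mE : ∀ s, MeasurableSet (A.E s) := by
    rintro (i | _ | k)
    · exact MeasurableSet.univ
    · exact mGd 0
    · exact (mGd _).inter ((hp _).measurable (mGd k).compl)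
  refine ⟨A.Y0, A.T, mY0, ?_, fun g y hy => A.Y0_inv g hy, ?_, A.acyclic, fun y hy z =>
    ⟨A.orbit_of_reach, by rintro ⟨g, rfl⟩; exact A.reach_all g y hy⟩⟩
  · have : ∀ᵐ y ∂μ, ∀ g, A.a g y ∈ A.Y1 :=
      ae_all_iff.2 fun g => (hp g).quasiMeasurePreserving.ae hY1
    exact measure_mono_null (fun y hy h => hy (Set.mem_iInter.2 h)) this
  · have mR : Measurable fun p : Y × Y =>
        ∃ s, p.1 ∈ A.Y0 ∧ p.1 ∈ A.E s ∧ p.2 = A.a (Tow.gen S s) p.1 :=
      Measurable.exists fun s => ((measurableSet_setOfPred.1 mY0).comp measurable_fst).and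
        (((measurableSet_setOfPred.1 (mE s)).comp measurable_fst).and
          (measurableSet_setOfPred.1 (measurableSet_eq_fun measurable_snd
            ((hp _).measurable.comp measurable_fst))))
    exact measurableSet_setOfPred.2 ((Measurable.not (measurableSet_setOfPred.1
      (measurableSet_eq_fun measurable_fst measurable_snd))).and (mR.or (mR.comp measurable_swap)))

/-- The uniform measure on a cyclic group. -/
noncomputable def un (k : ℕ) : Measure (ZMod (9 ^ (k + 1))) :=
  ((9 ^ (k + 1) : ℕ) : ENNReal)⁻¹ • Measure.count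

instance (k : ℕ) : IsProbabilityMeasure (un k) := ⟨by
  simp only [un, Measure.smul_apply, Measure.count_univ, ENat.card_eq_coe_fintype_card,
    ZMod.card, ENat.toENNReal_coe, smul_eq_mul]
  exact ENNReal.inv_mul_cancel (by simp) (by simp)⟩

instance (k : ℕ) : (un k).IsAddRightInvariant := by unfold un; infer_instance

lemma un_top (k : ℕ) : (un k).real {t | 9 ^ (k + 1) ≤ t.val + 3} ≤ 3 * (1 / 9) ^ (k + 1) := by
  have h9 : 9 ≤ 9 ^ (k + 1) := Nat.le_self_pow (by omega) 9
  have : {t : ZMod (9 ^ (k + 1)) | 9 ^ (k + 1) ≤ t.val + 3} ⊆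
      ⋃ j : Fin 3, {((9 ^ (k + 1) - 3 + j : ℕ) : ZMod (9 ^ (k + 1)))} := by
    intro t ht
    have h1 := ZMod.val_lt t
    simp only [Set.mem_ofPred_eq] at ht
    refine Set.mem_iUnion.2 ⟨⟨t.val + 3 - 9 ^ (k + 1), by omega⟩, ?_⟩
    rw [Set.mem_singleton_iff, show 9 ^ (k + 1) - 3 + (t.val + 3 - 9 ^ (k + 1)) = t.val by omega,
      ZMod.natCast_zmod_val]
  refine (measureReal_mono this).trans ((measureReal_iUnion_fintype_le _).trans ?_)
  simp [un, Measure.real]

theorem exists_treeable (S : Sys G) : ∃ (Y : Type) (_ : MeasurableSpace Y)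
    (_ : StandardBorelSpace Y) (ν : Measure Y) (_ : IsProbabilityMeasure ν) (a : G → Y → Y),
    FreePmp a ν ∧ Treeable a ν := by
  have : Infinite G := Infinite.of_injective _ S.b_inj
  have hψ : ∀ k : ℕ, ∃ ψ : G → ZMod (9 ^ (k + 1)), (∀ g h, ψ (g * h) = ψ g + ψ h) ∧ ψ S.x = 0 ∧
      ψ S.y = 0 ∧ ψ (S.b (k + 1)) = 1 := by
    intro k
    have h4 : (4 : ZMod (9 ^ (k + 1))) * (4 : ZMod (9 ^ (k + 1)))⁻¹ = 1 := by
      exact_mod_cast ZMod.coe_mul_inv_eq_one (n := 9 ^ (k + 1)) 4
        (Nat.Coprime.pow_right _ (by norm_num))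
    obtain ⟨ψ, h1, h2, h3, h5⟩ := S.exists_hom
      (fun m => (4 : ZMod (9 ^ (k + 1))) ^ (k + 1) * (4 : ZMod (9 ^ (k + 1)))⁻¹ ^ m) (fun m => by
        simp only [nsmul_eq_mul, Nat.cast_ofNat, pow_succ _ m]
        linear_combination (-(4 : ZMod (9 ^ (k + 1))) ^ (k + 1) * 4⁻¹ ^ m) * h4)
    exact ⟨ψ, h1, h2, h3, by rw [h5, ← mul_pow, h4, one_pow]⟩
  choose ψ hmul hx hy hb using hψ
  have hone : ∀ k, ψ k 1 = 0 := fun k => by simpa using hmul k 1 1
  let A : Tow S ((G → Bool) × ∀ k : ℕ, ZMod (9 ^ (k + 1))) :=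
    { a := fun g y => (shift g y.1, fun k => y.2 k + ψ k g)
      a_one := fun y => by simp [hone]
      a_mul := fun g h y => by
        simp only [shift_mul, hmul, Prod.mk.injEq, true_and]
        ext k
        ring
      ht := fun k y => (y.2 k).val
      D := fun k => {y | 9 ^ (k + 1) ≤ (y.2 k).val + 3}
      hht := fun k y h i => by
        have h9 : 9 ≤ 9 ^ (k + 1) := Nat.le_self_pow (by omega) 9
        have h1 : ψ k (S.γ (k + 1) i) = ((i : ℕ) : ZMod (9 ^ (k + 1))) := by
          fin_cases i <;> simp [Sys.γ, hone, hmul, hx, hy, hb] <;> norm_num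
        have h2 : (((i : ℕ) : ZMod (9 ^ (k + 1)))).val = i :=
          ZMod.val_natCast_of_lt (by have := i.2; omega)
        simp only [Set.mem_ofPred_eq, not_le] at h
        simp only [h1]
        rw [ZMod.val_add_of_lt (by have := i.2; omega), h2] }
  let ν := (bm G).prod (Measure.infinitePi un)
  have hp : ∀ g, MeasurePreserving (A.a g) ν ν := by
    intro g
    refine (shift_pres g).prod (g := fun (t : ∀ k : ℕ, ZMod (9 ^ (k + 1))) k => t k + ψ k g)
      ⟨by fun_prop, ?_⟩
    rw [Measure.infinitePi_map_pi un (f := fun k t => t + ψ k g) (fun k => by fun_prop)]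
    simp only [map_add_right_eq_self]
  have hf : ∀ g, g ≠ 1 → ν {y | A.a g y = y} = 0 := by
    intro g hg
    refine measure_mono_null (t := {x | shift g x = x} ×ˢ Set.univ)
      (fun y hy => ⟨congrArg Prod.fst hy, trivial⟩) ?_
    rw [Measure.prod_prod, shift_free g hg, zero_mul]
  refine ⟨_, inferInstance, inferInstance, ν, inferInstance, A.a, ⟨A.a_one, A.a_mul, hp, hf⟩,
    A.treeable ν hp hf (fun k => ?_) (fun k => ?_)⟩
  · exact (show Measurable fun y : (G → Bool) × ∀ k : ℕ, ZMod (9 ^ (k + 1)) => y.2 k from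
      (measurable_pi_apply k).comp measurable_snd) (show MeasurableSet {t : ZMod (9 ^ (k + 1)) | 9 ^ (k + 1) ≤ t.val + 3} from trivial)
  · have h1 : MeasurePreserving (fun y : (G → Bool) × ∀ k : ℕ, ZMod (9 ^ (k + 1)) => y.2 k) ν
        (un k) := (measurePreserving_eval_infinitePi un k).comp measurePreserving_snd
    refine le_trans (le_of_eq ?_) (un_top k)
    exact h1.measureReal_preimage
      (show MeasurableSet {t : ZMod (9 ^ (k + 1)) | 9 ^ (k + 1) ≤ t.val + 3} from
        trivial).nullMeasurableSet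

end Pool.Agent.MP_494aff_an

end MrgPart2

-- marker of a merged file
example : 731051 + 341673 = 731051 + 341673 := rfl
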